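import Pool.Agent.H.MP_96e181_an.spx.FinalGen

/-! # Module Weak: from Fourier coefficients to weak convergence; finite orbits -/

set_option autoImplicit false

open MeasureTheory Filter Topology

namespace Furst96.Spx

open Furst96.Sps

/-- convergence of the Fourier coefficients gives weak convergence. -/
theorem tendsto_integral_of_coef (μ : ℕ → Measure UnitAddCircle)
    (hμ : ∀ n, IsProbabilityMeasure (μ n))
    (h : ∀ k : ℤ, k ≠ 0 → Tendsto (fun n => coef (μ n) k) atTop (𝓝 0)) (f : UnitAddCircle → ℝ)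
    (hf : Continuous f) : Tendsto (fun n => ∫ x, f x ∂(μ n)) atTop (𝓝 (∫ x, f x)) := by
  have hI : ∀ (ν : Measure UnitAddCircle) [IsProbabilityMeasure ν] (g : C(UnitAddCircle, ℂ)),
      Integrable (fun x => g x) ν := by
    intro ν _ g
    refine Integrable.of_bound (C := ‖g‖) g.continuous.aestronglyMeasurable ?_
    exact Filter.Eventually.of_forall fun x => g.norm_coe_le_norm x
  have hdiff : ∀ (ν : Measure UnitAddCircle) [IsProbabilityMeasure ν] (g g₀ : C(UnitAddCircle, ℂ)),
      ‖(∫ x, g x ∂ν) - (∫ x, g₀ x ∂ν)‖ ≤ ‖g - g₀‖ := by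
    intro ν _ g g₀
    rw [← integral_sub (hI ν g) (hI ν g₀)]
    refine (norm_integral_le_of_norm_le_const (C := ‖g - g₀‖)
      (Filter.Eventually.of_forall fun x => (g - g₀).norm_coe_le_norm x)).trans ?_
    simp
  have hspan : ∀ g ∈ Submodule.span ℂ (Set.range (@fourier (1 : ℝ))),
      Tendsto (fun n => ∫ x, g x ∂(μ n)) atTop (𝓝 (∫ x, g x)) := by
    intro g hg
    refine Submodule.span_induction ?_ ?_ ?_ ?_ hg
    · rintro _ ⟨k, rfl⟩
      by_cases hk : k = 0
      · subst hk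
        have h1 : (fun n => ∫ x, (fourier (T := (1 : ℝ)) 0) x ∂(μ n)) = fun _ => (1 : ℂ) := by
          funext n
          exact coef_zero (μ := μ n)
        have h2 : ∫ x : UnitAddCircle, (fourier (T := (1 : ℝ)) 0) x = 1 :=
          coef_zero (μ := (volume : Measure UnitAddCircle))
        rw [h1, h2]
        exact tendsto_const_nhds
      · rw [integral_fourier_ne hk]
        exact h k hk
    · simp
    · intro a b _ _ ha hb
      have h1 : (fun n => ∫ x, (a + b) x ∂(μ n)) =
          fun n => (∫ x, a x ∂(μ n)) + (∫ x, b x ∂(μ n)) := by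
        funext n
        simp only [ContinuousMap.add_apply]
        exact integral_add (hI (μ n) a) (hI (μ n) b)
      have h2 : (∫ x, (a + b) x) = (∫ x, a x) + (∫ x, b x) := by
        simp only [ContinuousMap.add_apply]
        exact integral_add (hI volume a) (hI volume b)
      rw [h1, h2]
      exact ha.add hb
    · intro c a _ ha
      have h1 : (fun n => ∫ x, (c • a) x ∂(μ n)) = fun n => c * ∫ x, a x ∂(μ n) := by
        funext n
        simp only [ContinuousMap.smul_apply, smul_eq_mul]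
        exact integral_const_mul c _
      have h2 : ∫ x, (c • a) x = c * ∫ x, a x := by
        simp only [ContinuousMap.smul_apply, smul_eq_mul]
        exact integral_const_mul c _
      rw [h1, h2]
      exact ha.const_mul c
  have key : ∀ g : C(UnitAddCircle, ℂ),
      Tendsto (fun n => ∫ x, g x ∂(μ n)) atTop (𝓝 (∫ x, g x)) := by
    intro g
    have hg : g ∈ (Submodule.span ℂ (Set.range (@fourier (1 : ℝ)))).topologicalClosure := by
      rw [span_fourier_closure_eq_top]
      trivial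
    rw [Metric.tendsto_atTop]
    intro ε hε
    obtain ⟨g₀, hg₀, hd⟩ := Metric.mem_closure_iff.1 hg (ε / 3) (by positivity)
    rw [dist_eq_norm] at hd
    obtain ⟨n₀, hn₀⟩ := Metric.tendsto_atTop.1 (hspan g₀ hg₀) (ε / 3) (by positivity)
    refine ⟨n₀, fun n hn => ?_⟩
    have h1 := hdiff (μ n) g g₀
    have h2 := hdiff volume g g₀
    have h3 := hn₀ n hn
    rw [dist_eq_norm] at h3 ⊢
    have e : (∫ x, g x ∂(μ n)) - (∫ x, g x) = ((∫ x, g x ∂(μ n)) - (∫ x, g₀ x ∂(μ n))) +
        ((∫ x, g₀ x ∂(μ n)) - (∫ x, g₀ x)) - ((∫ x, g x) - (∫ x, g₀ x)) := by ring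
    rw [e]
    calc _ ≤ ‖(∫ x, g x ∂(μ n)) - (∫ x, g₀ x ∂(μ n))‖ + ‖(∫ x, g₀ x ∂(μ n)) - (∫ x, g₀ x)‖ +
          ‖(∫ x, g x) - (∫ x, g₀ x)‖ :=
          (norm_sub_le _ _).trans (add_le_add (norm_add_le _ _) le_rfl)
      _ < ε := by linarith
  let g : C(UnitAddCircle, ℂ) := ⟨fun x => (f x : ℂ), by fun_prop⟩
  have hg := key g
  have h1 : (fun n => ∫ x, g x ∂(μ n)) = fun n => ((∫ x, f x ∂(μ n) : ℝ) : ℂ) := by
    funext n
    exact integral_complex_ofReal
  have h2 : ∫ x, g x = ((∫ x, f x : ℝ) : ℂ) := integral_complex_ofReal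
  rw [h1, h2] at hg
  exact_mod_cast (Complex.continuous_re.tendsto _).comp hg

theorem tendsto_volume (P : Set ℕ) (hP : ∀ p ∈ P, 2 ≤ p) (hco : P.Pairwise Nat.Coprime)
    (h1 : Summable fun j : ℕ => 1 / ((P ∩ Set.Iic (2 ^ 2 ^ j)).ncard : ℝ))
    (h2 : ∀ C : ℝ, ∃ᶠ y : ℕ in atTop, C * Real.log y ^ 4 ≤ ((P ∩ Set.Iic y).ncard : ℝ))
    (μ : ℕ → Measure UnitAddCircle) (hμ : ∀ n, IsProbabilityMeasure (μ n))
    (hinv : ∀ n, ∀ p ∈ P, Inv (μ n) p)
    (htor : ∀ b : ℕ, 1 ≤ b → Tendsto (fun n => μ n {x | b • x = 0}) atTop (𝓝 0))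
    (f : UnitAddCircle → ℝ) (hf : Continuous f) :
    Tendsto (fun n => ∫ x, f x ∂(μ n)) atTop (𝓝 (∫ x, f x)) := by
  refine tendsto_integral_of_coef μ hμ (fun k hk => ?_) f hf
  rw [Metric.tendsto_atTop]
  intro ε hε
  obtain ⟨B, hB, δ, hδ, h3⟩ := coef_uniform' P hP hco h1 h2 k hk (ε / 2) (by positivity)
  have h4 := (ENNReal.tendsto_toReal ENNReal.zero_ne_top).comp (htor B hB)
  rw [ENNReal.toReal_zero] at h4
  obtain ⟨n₀, hn₀⟩ := eventually_atTop.1 (h4.eventually_le_const hδ)
  refine ⟨n₀, fun n hn => ?_⟩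
  rw [dist_eq_norm, sub_zero]
  have h5 := h3 (μ n) (hμ n) (hinv n) (hn₀ n hn)
  linarith

/-- the finite invariant sets of torsion points of large order are equidistributed. -/
theorem finite_orbits (P : Set ℕ) (hP : ∀ p ∈ P, 2 ≤ p) (hco : P.Pairwise Nat.Coprime)
    (h1 : Summable fun j : ℕ => 1 / ((P ∩ Set.Iic (2 ^ 2 ^ j)).ncard : ℝ))
    (h2 : ∀ C : ℝ, ∃ᶠ y : ℕ in atTop, C * Real.log y ^ 4 ≤ ((P ∩ Set.Iic y).ncard : ℝ))
    (k : ℤ) (hk : k ≠ 0) (η : ℝ) (hη : 0 < η) :
    ∃ m : ℕ, ∀ S : Finset UnitAddCircle, (∀ p ∈ P, ∀ x ∈ S, p • x ∈ S) →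
      (∀ p ∈ P, Set.InjOn (fun x : UnitAddCircle => p • x) S) →
      (∀ x ∈ S, m < addOrderOf x) → ‖∑ x ∈ S, (fourier k x : ℂ)‖ ≤ η * S.card := by
  classical
  obtain ⟨B, hB, δ, hδ, h3⟩ := coef_uniform' P hP hco h1 h2 k hk η hη
  refine ⟨B, fun S hS1 hS2 hS3 => ?_⟩
  rcases S.eq_empty_or_nonempty with hne | hne
  · rw [hne]
    simp
  have hcard : 0 < S.card := hne.card_pos
  have hcR : (0 : ℝ) < S.card := by exact_mod_cast hcard
  have hc0 : ((S.card : ℕ) : ENNReal) ≠ 0 := by exact_mod_cast hcard.ne'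
  have hct : ((S.card : ℕ) : ENNReal) ≠ ⊤ := ENNReal.natCast_ne_top _
  let ν : Measure UnitAddCircle := ∑ x ∈ S, Measure.dirac x
  have hν : ∀ A : Set UnitAddCircle, MeasurableSet A →
      ν A = ∑ x ∈ S, A.indicator (fun _ => (1 : ENNReal)) x := by
    intro A hA
    simp only [ν, Measure.coe_finsetSum, Finset.sum_apply]
    exact Finset.sum_congr rfl fun x _ => by rw [Measure.dirac_apply' x hA]; rfl
  have hν1 : ν Set.univ = S.card := by
    rw [hν _ MeasurableSet.univ]
    simp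
  let μ : Measure UnitAddCircle := ((S.card : ℕ) : ENNReal)⁻¹ • ν
  have hμ : IsProbabilityMeasure μ := ⟨by
    simp only [μ, Measure.smul_apply, smul_eq_mul]
    rw [hν1, ENNReal.inv_mul_cancel hc0 hct]⟩
  have hinv : ∀ p ∈ P, Inv μ p := by
    intro p hp
    have hm : Measurable (fun x : UnitAddCircle => p • x) :=
      (continuous_nsmul_circle p).measurable
    refine ⟨hm, ?_⟩
    ext A hA
    rw [Measure.map_apply hm hA]
    simp only [μ, Measure.smul_apply, smul_eq_mul]
    congr 1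
    rw [hν _ (hm hA), hν _ hA]
    have himg : S.image (fun x => p • x) = S := by
      refine Finset.eq_of_subset_of_card_le ?_ ?_
      · intro y hy
        obtain ⟨x, hx, rfl⟩ := Finset.mem_image.1 hy
        exact hS1 p hp x hx
      · rw [Finset.card_image_of_injOn (hS2 p hp)]
    conv_rhs => rw [← himg]
    rw [Finset.sum_image (fun x hx y hy hxy => hS2 p hp hx hy hxy)]
    rfl
  have htor : μ.real {x : UnitAddCircle | B • x = 0} ≤ δ := by
    have hcl : IsClosed {x : UnitAddCircle | B • x = 0} :=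
      isClosed_eq (continuous_nsmul_circle B) continuous_const
    have h0 : μ {x : UnitAddCircle | B • x = 0} = 0 := by
      simp only [μ, Measure.smul_apply, smul_eq_mul]
      rw [hν _ hcl.measurableSet]
      rw [Finset.sum_eq_zero, mul_zero]
      intro x hx
      rw [Set.indicator_of_notMem]
      intro h4
      have h5 : B • x = 0 := h4
      have h6 := Nat.le_of_dvd (by omega) (addOrderOf_dvd_of_nsmul_eq_zero h5)
      have h7 := hS3 x hx
      omega
    unfold Measure.real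
    rw [h0, ENNReal.toReal_zero]
    exact hδ.le
  have h4 := h3 μ hμ hinv htor
  have h5 : coef μ k = (S.card : ℂ)⁻¹ * ∑ x ∈ S, (fourier k x : ℂ) := by
    unfold coef
    simp only [μ, ν]
    rw [integral_smul_measure, integral_finsetSum_measure]
    · simp only [integral_dirac, ENNReal.toReal_inv, ENNReal.toReal_natCast]
      rw [Complex.real_smul]
      push_cast
      rfl
    · intro x _
      refine Integrable.of_bound (C := 1) (by fun_prop) ?_
      exact Filter.Eventually.of_forall fun y => le_of_eq (Circle.norm_coe _)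
  rw [h5, norm_mul, norm_inv, Complex.norm_natCast, inv_mul_le_iff₀ hcR] at h4
  linarith

end Furst96.Spx
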