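import Pool.Agent.H.MP_96e181_an.sps.BaseDvd

/-! # Module Count: how often does multiplication by `s` shorten the denominator

Let `S` be pairwise coprime.  For a point `x` let `q` be the least `c ≥ 1` with `‖c x‖ ≤ ρ`.  If
`s x ∈ Near (2^i) ρ`, `s ∈ S`, then `q ≤ 2^i gcd(q, s)`; if moreover `q ≤ 2^i` then `x` is in
`Near (2^i) (ρ 2^(2a) / lo)`.  As the product of the `gcd(q, s)` divides `q`, the number of pairs
`(i, s)` with `2^i < q ≤ 2^i gcd(q, s)` is at most `8 a`. -/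

set_option autoImplicit false

open MeasureTheory

namespace Furst96.Spx

open Furst96.Sps

theorem prod_gcd_dvd (S : Finset ℕ) (hco : (S : Set ℕ).Pairwise Nat.Coprime) (q : ℕ) :
    ∏ s ∈ S, Nat.gcd q s ∣ q := by
  refine Finset.prod_dvd_of_isRelPrime ?_ fun s _ => Nat.gcd_dvd_left q s
  intro s hs t ht hne
  rw [Function.onFun, ← Nat.coprime_iff_isRelPrime]
  exact Nat.Coprime.coprime_dvd_left (Nat.gcd_dvd_right q s)
    (Nat.Coprime.coprime_dvd_right (Nat.gcd_dvd_right q t) (hco hs ht hne))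

/-- the number of scales `i` with `2^i < q ≤ 2^i g`. -/
theorem card_scales (a q g : ℕ) (hq : 1 ≤ q) (hg : 1 ≤ g) :
    ((Finset.Ioc a (2 * a)).filter fun i => 2 ^ i < q ∧ q ≤ 2 ^ i * g).card ≤ 2 * Nat.log 2 g := by
  rcases Nat.lt_or_ge g 2 with h | h
  · have hg1 : g = 1 := by omega
    subst hg1
    rw [Finset.filter_false_of_mem]
    · simp
    · rintro i - ⟨h1, h2⟩
      omega
  · have hL : 1 ≤ Nat.log 2 g := Nat.log_pos (by norm_num) h
    have hsub : ((Finset.Ioc a (2 * a)).filter fun i => 2 ^ i < q ∧ q ≤ 2 ^ i * g) ⊆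
        Finset.Icc (Nat.log 2 q - Nat.log 2 g) (Nat.log 2 q) := by
      intro i hi
      obtain ⟨-, h1, h2⟩ := Finset.mem_filter.1 hi
      rw [Finset.mem_Icc]
      have h3 : q < 2 ^ (Nat.log 2 q + 1) := Nat.lt_pow_succ_log_self (by norm_num) q
      have h4 : 2 ^ Nat.log 2 q ≤ q := Nat.pow_log_le_self 2 (by omega)
      have h5 : g < 2 ^ (Nat.log 2 g + 1) := Nat.lt_pow_succ_log_self (by norm_num) g
      constructor
      · have h6 : 2 ^ Nat.log 2 q < 2 ^ (i + (Nat.log 2 g + 1)) := by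
          rw [pow_add]
          refine lt_of_le_of_lt (h4.trans h2) ?_
          exact Nat.mul_lt_mul_of_pos_left h5 (by positivity)
        have h7 := (Nat.pow_lt_pow_iff_right (by norm_num : 1 < 2)).1 h6
        omega
      · have h6 := (Nat.pow_lt_pow_iff_right (by norm_num : 1 < 2)).1 (h1.trans h3)
        omega
    refine (Finset.card_le_card hsub).trans ?_
    rw [Nat.card_Icc]
    omega

theorem count_arith (a q : ℕ) (hq : 1 ≤ q) (S : Finset ℕ)
    (hco : (S : Set ℕ).Pairwise Nat.Coprime) :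
    ∑ i ∈ Finset.Ioc a (2 * a), (S.filter fun s => 2 ^ i < q ∧ q ≤ 2 ^ i * Nat.gcd q s).card ≤
      8 * a := by
  rcases Nat.lt_or_ge (2 ^ (4 * a)) q with h | h
  · -- at most one `s` for every `i`
    have h1 : ∀ i ∈ Finset.Ioc a (2 * a),
        (S.filter fun s => 2 ^ i < q ∧ q ≤ 2 ^ i * Nat.gcd q s).card ≤ 1 := by
      intro i hi
      rw [Finset.card_le_one]
      intro s hs t ht
      by_contra hne
      obtain ⟨hsS, -, hs2⟩ := Finset.mem_filter.1 hs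
      obtain ⟨htS, -, ht2⟩ := Finset.mem_filter.1 ht
      have h2 : Nat.gcd q s * Nat.gcd q t ≤ q := by
        refine Nat.le_of_dvd (by omega) ?_
        refine Nat.Coprime.mul_dvd_of_dvd_of_dvd ?_ (Nat.gcd_dvd_left q s) (Nat.gcd_dvd_left q t)
        exact Nat.Coprime.coprime_dvd_left (Nat.gcd_dvd_right q s)
          (Nat.Coprime.coprime_dvd_right (Nat.gcd_dvd_right q t)
            (hco (Finset.mem_coe.2 hsS) (Finset.mem_coe.2 htS) hne))
      have h3 : q * q ≤ 2 ^ (4 * a) * q := by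
        calc q * q ≤ (2 ^ i * Nat.gcd q s) * (2 ^ i * Nat.gcd q t) := Nat.mul_le_mul hs2 ht2
          _ = 2 ^ (2 * i) * (Nat.gcd q s * Nat.gcd q t) := by rw [two_mul, pow_add]; ring
          _ ≤ 2 ^ (4 * a) * q := by
            refine Nat.mul_le_mul (Nat.pow_le_pow_right (by norm_num) ?_) h2
            have := (Finset.mem_Ioc.1 hi).2
            omega
      have h4 := Nat.le_of_mul_le_mul_right h3 (by omega : 0 < q)
      omega
    calc ∑ i ∈ Finset.Ioc a (2 * a), (S.filter fun s => 2 ^ i < q ∧ q ≤ 2 ^ i * Nat.gcd q s).card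
        ≤ ∑ _i ∈ Finset.Ioc a (2 * a), 1 := Finset.sum_le_sum h1
      _ = 2 * a - a := by rw [Finset.sum_const, Nat.card_Ioc, smul_eq_mul, mul_one]
      _ ≤ 8 * a := by omega
  · have h1 : ∑ i ∈ Finset.Ioc a (2 * a),
        (S.filter fun s => 2 ^ i < q ∧ q ≤ 2 ^ i * Nat.gcd q s).card =
        ∑ s ∈ S, ((Finset.Ioc a (2 * a)).filter fun i =>
          2 ^ i < q ∧ q ≤ 2 ^ i * Nat.gcd q s).card := by
      simp only [Finset.card_filter]
      exact Finset.sum_comm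
    have hg : ∀ s, 1 ≤ Nat.gcd q s := fun s => Nat.gcd_pos_of_pos_left s (by omega)
    have h2 : ∑ s ∈ S, Nat.log 2 (Nat.gcd q s) ≤ 4 * a := by
      have h3 : 2 ^ (∑ s ∈ S, Nat.log 2 (Nat.gcd q s)) ≤ 2 ^ (4 * a) := by
        rw [← Finset.prod_pow_eq_pow_sum]
        calc ∏ s ∈ S, 2 ^ Nat.log 2 (Nat.gcd q s) ≤ ∏ s ∈ S, Nat.gcd q s :=
              Finset.prod_le_prod' fun s _ => Nat.pow_log_le_self 2 (by
                have := hg s
                omega)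
          _ ≤ q := Nat.le_of_dvd (by omega) (prod_gcd_dvd S hco q)
          _ ≤ _ := h
      exact (Nat.pow_le_pow_iff_right (by norm_num)).1 h3
    rw [h1]
    calc _ ≤ ∑ s ∈ S, 2 * Nat.log 2 (Nat.gcd q s) :=
          Finset.sum_le_sum fun s _ => card_scales a q _ hq (hg s)
      _ = 2 * ∑ s ∈ S, Nat.log 2 (Nat.gcd q s) := by rw [Finset.mul_sum]
      _ ≤ 8 * a := by omega

open Classical in
theorem count_point (a : ℕ) (S : Finset ℕ) (hco : (S : Set ℕ).Pairwise Nat.Coprime) (lo hi : ℕ)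
    (hlo1 : 1 ≤ lo) (hlo : ∀ s ∈ S, lo ≤ s) (hhi : ∀ s ∈ S, s ≤ hi) (ρ : ℝ)
    (hρ : 2 * ((2 ^ (2 * a) * hi : ℕ) : ℝ) * ρ < 1) (x : UnitAddCircle) :
    ∑ i ∈ Finset.Ioc a (2 * a), (S.filter fun s =>
      s • x ∈ Near (2 ^ i) ρ ∧ x ∉ Near (2 ^ i) (ρ * 2 ^ (2 * a) / lo)).card ≤ 8 * a := by
  by_cases hex : ∃ c : ℕ, 1 ≤ c ∧ ‖c • x‖ ≤ ρ
  · obtain ⟨q, ⟨hq1, hqρ⟩, hmin⟩ : ∃ q : ℕ, (1 ≤ q ∧ ‖q • x‖ ≤ ρ) ∧
        ∀ c : ℕ, 1 ≤ c → c < q → ρ < ‖c • x‖ := by
      refine ⟨Nat.find hex, Nat.find_spec hex, fun c hc1 hc2 => ?_⟩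
      by_contra hcon
      exact Nat.find_min hex hc2 ⟨hc1, not_lt.1 hcon⟩
    refine le_trans (Finset.sum_le_sum fun i hi' => ?_) (count_arith a q hq1 S hco)
    refine Finset.card_le_card fun s hs => ?_
    obtain ⟨hsS, ⟨b, hb1, hbn, hbρ⟩, hx⟩ := Finset.mem_filter.1 hs
    rw [Finset.mem_filter]
    rw [← mul_smul] at hbρ
    have hs1 : 1 ≤ s := hlo1.trans (hlo s hsS)
    have h2i : 2 ^ i ≤ 2 ^ (2 * a) :=
      Nat.pow_le_pow_right (by norm_num) (Finset.mem_Ioc.1 hi').2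
    obtain ⟨hd, hnorm⟩ := base_dvd x ρ (2 ^ (2 * a) * hi) q hρ hq1 hqρ hmin (b * s)
      (Nat.one_le_iff_ne_zero.2 (by positivity)) (Nat.mul_le_mul (hbn.trans h2i) (hhi s hsS)) hbρ
    obtain ⟨g, hg⟩ : ∃ g, g = Nat.gcd q s := ⟨_, rfl⟩
    have hg0 : 0 < g := by rw [hg]; exact Nat.gcd_pos_of_pos_left s hq1
    obtain ⟨q', s', hcop, hq', hs'⟩ := Nat.exists_coprime q s
    rw [← hg] at hq' hs'
    have hdb : q' ∣ b := by
      have h1 : q' * g ∣ b * s' * g := by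
        rw [← hq', mul_assoc, ← hs']
        exact hd
      exact hcop.dvd_of_dvd_mul_right (Nat.dvd_of_mul_dvd_mul_right hg0 h1)
    obtain ⟨c, hc⟩ := hdb
    have hc1 : 1 ≤ c := by
      rcases Nat.eq_zero_or_pos c with h1 | h1
      · rw [h1, mul_zero] at hc
        omega
      · exact h1
    have hq'0 : 0 < q' := by
      rcases Nat.eq_zero_or_pos q' with h1 | h1
      · rw [h1, zero_mul] at hq'
        omega
      · exact h1
    have hq'b : q' ≤ 2 ^ i := by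
      refine le_trans ?_ hbn
      rw [hc]
      exact Nat.le_mul_of_pos_right q' hc1
    have hqg : q ≤ 2 ^ i * g := by
      rw [hq']
      exact Nat.mul_le_mul_right g hq'b
    refine ⟨hsS, ?_, by rw [← hg]; exact hqg⟩
    by_contra hcon
    rw [not_lt] at hcon
    refine hx ⟨q, hq1, hcon, ?_⟩
    have hdiv : b * s / q = c * s' := by
      rw [hc, hs', hq']
      have h1 : q' * c * (s' * g) = c * s' * (q' * g) := by ring
      rw [h1, Nat.mul_div_cancel _ (Nat.mul_pos hq'0 hg0)]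
    rw [hdiv] at hnorm
    have hgle : g ≤ 2 ^ (2 * a) := by
      refine le_trans (Nat.le_of_dvd (by omega) ?_) (hcon.trans h2i)
      rw [hg]
      exact Nat.gcd_dvd_left q s
    have hlo0 : (0 : ℝ) < lo := by exact_mod_cast hlo1
    rw [le_div_iff₀ hlo0]
    have h1 : lo ≤ c * s' * 2 ^ (2 * a) := by
      calc lo ≤ s := hlo s hsS
        _ = 1 * s' * g := by rw [one_mul, hs']
        _ ≤ c * s' * 2 ^ (2 * a) := Nat.mul_le_mul (Nat.mul_le_mul_right s' hc1) hgle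
    have h2 : (lo : ℝ) ≤ ((c * s' : ℕ) : ℝ) * 2 ^ (2 * a) := by exact_mod_cast h1
    calc ‖q • x‖ * lo ≤ ‖q • x‖ * (((c * s' : ℕ) : ℝ) * 2 ^ (2 * a)) :=
          mul_le_mul_of_nonneg_left h2 (norm_nonneg _)
      _ = ‖(b * s) • x‖ * 2 ^ (2 * a) := by rw [hnorm]; ring
      _ ≤ ρ * 2 ^ (2 * a) := mul_le_mul_of_nonneg_right hbρ (by positivity)
  · refine le_trans (le_of_eq (Finset.sum_eq_zero fun i _ => ?_)) (Nat.zero_le _)
    rw [Finset.card_eq_zero, Finset.filter_eq_empty_iff]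
    rintro s hs ⟨⟨b, hb1, -, hbρ⟩, -⟩
    rw [← mul_smul] at hbρ
    have hs1 : 1 ≤ s := hlo1.trans (hlo s hs)
    exact hex ⟨b * s, Nat.one_le_iff_ne_zero.2 (by positivity), hbρ⟩

end Furst96.Spx
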