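import Pool.Agent.H.MP_96e181_an.spx.Pw
import Pool.Agent.H.MP_96e181_an.spx.Count

/-! # Module Window: the hypothesis on `#(P ∩ [1, y])` gives windows `(2^w, 2^(3w)]` -/

set_option autoImplicit false

open Filter

namespace Furst96.Spx

/-- few elements of a pairwise coprime set are not coprime to `q`. -/
theorem card_not_coprime (S : Finset ℕ) (hco : (S : Set ℕ).Pairwise Nat.Coprime) (q : ℕ)
    (hq : 0 < q) : (S.filter fun s => ¬ Nat.Coprime q s).card ≤ q := by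
  classical
  obtain ⟨B, hB⟩ : ∃ B, B = S.filter fun s => ¬ Nat.Coprime q s := ⟨_, rfl⟩
  rw [← hB]
  have hBS : B ⊆ S := by
    rw [hB]
    exact Finset.filter_subset _ _
  have h1 : ∏ s ∈ B, Nat.gcd q s ∣ q := prod_gcd_dvd B (hco.mono (Finset.coe_subset.2 hBS)) q
  have h2 : 2 ^ B.card ≤ ∏ s ∈ B, Nat.gcd q s := by
    refine Finset.pow_card_le_prod B (fun s => Nat.gcd q s) 2 fun s hs => ?_
    rw [hB] at hs
    have h3 : Nat.gcd q s ≠ 1 := (Finset.mem_filter.1 hs).2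
    have h4 : 0 < Nat.gcd q s := Nat.gcd_pos_of_pos_left s hq
    omega
  have h3 : 2 ^ B.card ≤ q := h2.trans (Nat.le_of_dvd hq h1)
  exact (Nat.lt_two_pow_self).le.trans h3

theorem frequently_window (P : Set ℕ) (hP : ∀ p ∈ P, 2 ≤ p) (hco : P.Pairwise Nat.Coprime)
    (h2 : ∀ C : ℝ, ∃ᶠ y : ℕ in atTop, C * Real.log y ^ 4 ≤ ((P ∩ Set.Iic y).ncard : ℝ)) (C : ℕ)
    (k : ℤ) (hk : k ≠ 0) :
    ∃ᶠ w : ℕ in atTop, ∃ T : Finset ℕ, (∀ s ∈ T, s ∈ Submonoid.closure P ∧ 2 ^ w < s ∧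
      s ≤ 2 ^ (3 * w) ∧ IsCoprime (s : ℤ) k) ∧ (T : Set ℕ).Pairwise Nat.Coprime ∧
      T.card = C * w ^ 4 := by
  classical
  rw [frequently_atTop]
  intro w0
  have h3 := (h2 (5 * ((C : ℝ) + k.natAbs))).and_eventually (eventually_ge_atTop (2 ^ (w0 + 2)))
  obtain ⟨y, hy1, hy2⟩ := h3.exists
  set w := Nat.log 2 y with hw
  have hy0 : y ≠ 0 := by
    have : 0 < 2 ^ (w0 + 2) := by positivity
    omega
  have hwy : 2 ^ w ≤ y := Nat.pow_log_le_self 2 hy0
  have hwy2 : y < 2 ^ (w + 1) := Nat.lt_pow_succ_log_self (by norm_num) y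
  have hw0 : w0 + 2 ≤ w := by
    rw [hw]
    exact (Nat.le_log_iff_pow_le (by norm_num) hy0).2 hy2
  refine ⟨w, by omega, ?_⟩
  have hlog : (w : ℝ) * Real.log 2 ≤ Real.log y := by
    have h4 : ((2 ^ w : ℕ) : ℝ) ≤ y := by exact_mod_cast hwy
    have h5 := Real.log_le_log (by positivity) h4
    push_cast at h5
    rwa [Real.log_pow] at h5
  have hl2 : 0.69 < Real.log 2 := by
    have := Real.log_two_gt_d9
    linarith
  have h6 : (0.69 * (w : ℝ)) ^ 4 ≤ Real.log y ^ 4 := by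
    refine pow_le_pow_left₀ (by positivity) ?_ 4
    have : (0 : ℝ) ≤ w := by positivity
    nlinarith
  have hw1 : (1 : ℝ) ≤ (w : ℝ) ^ 4 := one_le_pow₀ (by exact_mod_cast (by omega : 1 ≤ w))
  have hqpos : 0 < k.natAbs := Int.natAbs_pos.2 hk
  have hbad := card_not_coprime (pw P y) (pw_coprime hco y) k.natAbs hqpos
  have h7 : C * w ^ 4 ≤ ((pw P y).filter fun s => Nat.Coprime k.natAbs s).card := by
    have h8 : ((C : ℝ) + k.natAbs) * (w : ℝ) ^ 4 ≤ ((pw P y).card : ℝ) := by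
      rw [pw_card hP hco]
      refine le_trans ?_ hy1
      have h9 : (0.69 * (w : ℝ)) ^ 4 = 0.22667121 * (w : ℝ) ^ 4 := by ring
      rw [h9] at h6
      have h10 : 0 ≤ (w : ℝ) ^ 4 := by positivity
      have h11 : (w : ℝ) ^ 4 ≤ 5 * Real.log y ^ 4 := by linarith
      calc ((C : ℝ) + k.natAbs) * (w : ℝ) ^ 4 ≤ ((C : ℝ) + k.natAbs) * (5 * Real.log y ^ 4) :=
            mul_le_mul_of_nonneg_left h11 (by positivity)
        _ = 5 * ((C : ℝ) + k.natAbs) * Real.log y ^ 4 := by ring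
    have h9 : ((pw P y).filter fun s => Nat.Coprime k.natAbs s).card +
        ((pw P y).filter fun s => ¬ Nat.Coprime k.natAbs s).card = (pw P y).card :=
      Finset.card_filter_add_card_filter_not _
    have h10 : ((pw P y).card : ℝ) ≤
        (((pw P y).filter fun s => Nat.Coprime k.natAbs s).card : ℝ) + k.natAbs := by
      have : (pw P y).card ≤ ((pw P y).filter fun s => Nat.Coprime k.natAbs s).card + k.natAbs := by
        omega
      exact_mod_cast this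
    have h11 : (k.natAbs : ℝ) * 1 ≤ (k.natAbs : ℝ) * (w : ℝ) ^ 4 :=
      mul_le_mul_of_nonneg_left hw1 (Nat.cast_nonneg _)
    have h12 : ((C * w ^ 4 : ℕ) : ℝ) ≤
        (((pw P y).filter fun s => Nat.Coprime k.natAbs s).card : ℝ) := by
      push_cast
      linarith
    exact_mod_cast h12
  obtain ⟨T, hT, hTc⟩ := Finset.exists_subset_card_eq h7
  refine ⟨T, fun s hs => ?_, ?_, hTc⟩
  · obtain ⟨h12, h13⟩ := Finset.mem_filter.1 (hT hs)
    obtain ⟨h14, h15, h16⟩ := pw_spec h12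
    refine ⟨h16, lt_of_le_of_lt hwy h14, h15.trans ?_, ?_⟩
    · calc y ^ 2 ≤ (2 ^ (w + 1)) ^ 2 := Nat.pow_le_pow_left hwy2.le 2
        _ = 2 ^ ((w + 1) * 2) := by rw [← pow_mul]
        _ ≤ 2 ^ (3 * w) := Nat.pow_le_pow_right (by norm_num) (by omega)
    · rw [Int.isCoprime_iff_gcd_eq_one, Int.gcd_comm]
      exact h13
  · refine (pw_coprime hco y).mono ?_
    intro s hs
    exact Finset.mem_coe.2 (Finset.mem_filter.1 (hT (Finset.mem_coe.1 hs))).1

end Furst96.Spx
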