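import Pool.Agent.H.MP_96e181_an.sps.Basics

/-! # Module MassFull: the residues modulo pairwise coprime numbers determine `i < ∏ T` -/

set_option autoImplicit false

namespace Furst96.Spx

open Furst96.Sps

theorem mass_full (T : Finset ℕ) (hT : (T : Set ℕ).Pairwise Nat.Coprime)
    (p : Fin (∏ s ∈ T, s) → ℝ) (i : Fin (∏ s ∈ T, s)) :
    mass p (fun s i => res s i) T i = p i := by
  classical
  have key : ∀ j : Fin (∏ s ∈ T, s), Same (fun s i => res s i) T i j → i = j := by
    intro j hij
    have h1 : (∏ s ∈ T, s) ∣ Int.natAbs ((i : ℤ) - (j : ℤ)) := by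
      apply Finset.prod_dvd_of_isRelPrime
      · intro s hs t ht hne
        rw [Function.onFun, ← Nat.coprime_iff_isRelPrime]
        exact hT hs ht hne
      · intro s hs
        have h2 : (i : ℕ) % s = (j : ℕ) % s := hij s hs
        have h3 : (s : ℤ) ∣ (i : ℤ) - (j : ℤ) := (Nat.modEq_iff_dvd.1 h2.symm)
        exact Int.natCast_dvd.1 h3
    have h4 : Int.natAbs ((i : ℤ) - (j : ℤ)) < ∏ s ∈ T, s := by
      have h5 := i.2
      have h6 := j.2
      omega
    have h7 := Nat.eq_zero_of_dvd_of_lt h1 h4
    apply Fin.ext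
    omega
  unfold mass
  rw [Finset.sum_eq_single i]
  · rw [if_pos (Same.refl _ T i)]
  · intro j _ hj
    rw [if_neg]
    intro h
    exact hj (key j h).symm
  · intro h
    exact absurd (Finset.mem_univ i) h

end Furst96.Spx
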