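import Pool.Agent.H.MP_96e181_an.sps.CircleLib

/-! # Module CrtPhases (pairwise coprime moduli) -/

set_option autoImplicit false

open MeasureTheory

namespace Furst96.Spx

open Furst96.Sps

private theorem crtPhases_mod (s : ℕ) (hs : 0 < s) (k : ℤ) (i : ℕ) :
    ee ((k : ℝ) * i / s) = ee ((k : ℝ) * ((i % s : ℕ) : ℝ) / s) := by
  have h : (i : ℝ) = s * ((i / s : ℕ) : ℝ) + ((i % s : ℕ) : ℝ) := by
    exact_mod_cast (Nat.div_add_mod i s).symm
  have hs' : (s : ℝ) ≠ 0 := by positivity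
  have h2 : (k : ℝ) * i / s =
      ((k * ((i / s : ℕ) : ℤ) : ℤ) : ℝ) + (k : ℝ) * ((i % s : ℕ) : ℝ) / s := by
    rw [h, Int.cast_mul, Int.cast_natCast]
    field_simp
  rw [h2, ee_add, ee_int, one_mul]

theorem crt_phases (Q : Finset ℕ) (hQ : (Q : Set ℕ).Pairwise Nat.Coprime)
    (hQ0 : ∀ s ∈ Q, 0 < s) :
    ∃ c : ℕ → ℤ, (∀ s ∈ Q, IsCoprime (s : ℤ) (c s)) ∧
      ∀ (m : ℤ) (i : ℕ), ee ((m : ℝ) * i / ((∏ s ∈ Q, s : ℕ) : ℝ)) =
        ∏ s ∈ Q, ee ((m : ℝ) * c s * ((i % s : ℕ) : ℝ) / s) := by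
  classical
  induction Q using Finset.induction_on with
  | empty =>
    refine ⟨fun _ => 0, by simp, fun m i => ?_⟩
    have h : (m : ℝ) * i / ((∏ s ∈ (∅ : Finset ℕ), s : ℕ) : ℝ) = ((m * (i : ℤ) : ℤ) : ℝ) := by
      simp
    rw [h, ee_int, Finset.prod_empty]
  | insert a Q ha ih =>
    obtain ⟨c, hc, hm⟩ := ih (hQ.mono (by
      rw [Finset.coe_insert]
      exact Set.subset_insert a _)) fun s hs => hQ0 s (Finset.mem_insert_of_mem hs)
    have hap : 0 < a := hQ0 a (Finset.mem_insert_self a Q)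
    set M : ℕ := ∏ s ∈ Q, s with hMdef
    have hco : Nat.Coprime a M := by
      refine Nat.Coprime.prod_right fun s hs => ?_
      exact hQ (Finset.mem_coe.2 (Finset.mem_insert_self a Q))
        (Finset.mem_coe.2 (Finset.mem_insert_of_mem hs)) (fun h => ha (h ▸ hs))
    have hM0 : M ≠ 0 := by
      refine Finset.prod_ne_zero_iff.2 fun s hs => ?_
      exact (hQ0 s (Finset.mem_insert_of_mem hs)).ne'
    have ha0 : (a : ℝ) ≠ 0 := by exact_mod_cast hap.ne'
    have hM0' : (M : ℝ) ≠ 0 := by exact_mod_cast hM0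
    obtain ⟨u, v, huv⟩ : ∃ u v : ℤ, u * a + v * M = 1 := by
      have h := (Nat.isCoprime_iff_coprime (m := a) (n := M)).2 hco
      obtain ⟨u, v, h⟩ := h
      exact ⟨u, v, h⟩
    refine ⟨fun s => if s = a then v else u * c s, ?_, ?_⟩
    · intro s hs
      rcases Finset.mem_insert.1 hs with rfl | hs
      · simp only [if_true]
        exact ⟨u, M, by rw [← huv]; ring⟩
      · have hne : s ≠ a := fun h => ha (h ▸ hs)
        simp only [if_neg hne]
        have hsM : (s : ℤ) ∣ (M : ℤ) := by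
          exact_mod_cast Finset.dvd_prod_of_mem (fun s => s) hs
        refine IsCoprime.mul_right ?_ (hc s hs)
        obtain ⟨M', hM'⟩ := hsM
        exact ⟨v * M', a, by rw [← huv, hM']; ring⟩
    · intro m i
      rw [Finset.prod_insert ha, Finset.prod_insert ha]
      have hR : (u : ℝ) * a + v * M = 1 := by exact_mod_cast huv
      have h1 : (m : ℝ) * i / ((a * M : ℕ) : ℝ) =
          ((m * v : ℤ) : ℝ) * i / a + ((m * u : ℤ) : ℝ) * i / (M : ℝ) := by
        push_cast
        rw [div_add_div _ _ ha0 hM0', div_eq_div_iff (mul_ne_zero ha0 hM0') (mul_ne_zero ha0 hM0')]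
        linear_combination (-(m : ℝ) * i * a * M) * hR
      rw [h1, ee_add, crtPhases_mod a hap (m * v) i, hm (m * u) i]
      congr 1
      · congr 1
        simp only [if_true]
        push_cast
        ring
      · refine Finset.prod_congr rfl fun s hs => ?_
        have hne : s ≠ a := fun h => ha (h ▸ hs)
        simp only [if_neg hne]
        congr 1
        push_cast
        ring

theorem theta_bound (r : ℕ) (hr : 0 < r) (m c : ℤ) (hm : IsCoprime (r : ℤ) m)
    (hc : IsCoprime (r : ℤ) c)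
    (a a' : ℕ) (ha : a < r) (ha' : a' < r) (hne : a ≠ a') :
    1 / (r : ℝ) ≤ ‖(((m : ℝ) * c * a / r - (m : ℝ) * c * a' / r : ℝ) : UnitAddCircle)‖ := by
  have hr0 : (0 : ℝ) < r := by exact_mod_cast hr
  rw [UnitAddCircle.norm_eq]
  set t : ℝ := (m : ℝ) * c * a / r - (m : ℝ) * c * a' / r with ht
  by_contra hcon
  rw [not_le] at hcon
  set n : ℤ := m * c * ((a : ℤ) - a') - r * round t with hn
  have hnt : (n : ℝ) = r * (t - round t) := by
    rw [hn, ht]
    push_cast
    field_simp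
  have h1 : |(n : ℝ)| < 1 := by
    rw [hnt, abs_mul, abs_of_pos hr0]
    calc (r : ℝ) * |t - round t| < r * (1 / r) := mul_lt_mul_of_pos_left hcon hr0
      _ = 1 := by field_simp
  have h2 : |n| < 1 := by exact_mod_cast h1
  have h3 : n = 0 := Int.abs_lt_one_iff.1 h2
  have h4 : (r : ℤ) ∣ m * c * ((a : ℤ) - a') := ⟨round t, by rw [hn] at h3; linarith⟩
  have h : (r : ℤ) ∣ (a : ℤ) - a' := (IsCoprime.mul_right hm hc).dvd_of_dvd_mul_left h4
  have h5 : |(a : ℤ) - a'| < r := by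
    rw [abs_lt]
    constructor <;> omega
  have h6 : (a : ℤ) - a' = 0 := Int.eq_zero_of_abs_lt_dvd h h5
  omega

end Furst96.Spx
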