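import Pool.Agent.H.MP_96e181_an.sps.Transfer
import Pool.Agent.H.MP_96e181_an.sps.AverageSigma
import Pool.Agent.H.MP_96e181_an.sps.Decouple
import Pool.Agent.H.MP_96e181_an.spx.CrtPhases

/-! # Module Core: the main inequality for a Fourier coefficient (pairwise coprime moduli) -/

set_option autoImplicit false

open MeasureTheory

namespace Furst96.Spx

open Furst96.Sps

open Classical in
theorem core (μ : Measure UnitAddCircle) [IsProbabilityMeasure μ] (T : Finset ℕ)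
    (hco : (T : Set ℕ).Pairwise Nat.Coprime) (hT0 : ∀ s ∈ T, 0 < s) (hinv : ∀ s ∈ T, Inv μ s)
    (k : ℤ) (hk : ∀ s ∈ T, IsCoprime (s : ℤ) k) (D R : Finset ℕ) (hD : D ⊆ T) (hR : R ⊆ T \ D)
    {J : Type} [Fintype J] [Nonempty J] (σ : J → ℕ) (hσP : ∀ a, Inv μ (σ a))
    (Mx : ℝ) (hMx : ∀ a, (σ a : ℝ) ≤ Mx) (δ₀ η₀ : ℝ) (hδ₀ : 0 ≤ δ₀) (hη₀ : 0 ≤ η₀) (hi : ℕ)
    (hhi : ∀ s ∈ T, s ≤ hi)
    (hσ : ∀ θ : UnitAddCircle, 1 / (hi : ℝ) ≤ ‖θ‖ →
      ((Finset.univ.filter (fun a => ‖σ a • θ‖ < δ₀)).card : ℝ) ≤ η₀ * Fintype.card J) :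
    ‖coef μ k‖ ≤ 2 * Real.pi * |(k : ℝ)| * Mx / ((∏ s ∈ D ∪ R, s : ℕ) : ℝ) +
      (2 * η₀ + ∑ i : Fin (∏ s ∈ T, s), cm μ (∏ s ∈ T, s) i *
        Real.exp (-(2 * δ₀ ^ 2) *
          ∑ r ∈ R, gini (cm μ (∏ s ∈ T, s)) (fun s i => res s i) D r i)) +
      2 * Real.sqrt (tc (cm μ (∏ s ∈ T, s)) (fun s i => res s i) D R) := by
  have hRT : R ⊆ T := fun s hs => (Finset.mem_sdiff.1 (hR hs)).1
  have hDR : Disjoint D R := by
    rw [Finset.disjoint_left]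
    intro s hsD hsR
    exact (Finset.mem_sdiff.1 (hR hsR)).2 hsD
  have hDRT : D ∪ R ⊆ T := Finset.union_subset hD hRT
  obtain ⟨c, hc1, hc2⟩ := crt_phases (D ∪ R) (hco.mono (Finset.coe_subset.2 hDRT))
    (fun s hs => hT0 s (hDRT hs))
  have hNQ : ∏ s ∈ T, s = (∏ s ∈ D ∪ R, s) * ∏ s ∈ T \ (D ∪ R), s := by
    rw [mul_comm]
    exact (Finset.prod_sdiff hDRT).symm
  have hQ : 0 < ∏ s ∈ D ∪ R, s := Finset.prod_pos fun s hs => hT0 s (hDRT hs)
  have hM : 0 < ∏ s ∈ T \ (D ∪ R), s :=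
    Finset.prod_pos fun s hs => hT0 s (Finset.mem_sdiff.1 hs).1
  have hN : 0 < ∏ s ∈ T, s := Finset.prod_pos fun s hs => hT0 s hs
  have hinvM : Inv μ (∏ s ∈ T \ (D ∪ R), s) :=
    Inv.prod fun s hs => hinv s (Finset.mem_sdiff.1 hs).1
  have hp : ∀ i, 0 ≤ cm μ (∏ s ∈ T, s) i := cm_nonneg μ _
  have hs1 : ∑ i, cm μ (∏ s ∈ T, s) i = 1 := sum_cm μ hN
  have hcard : (0 : ℝ) < Fintype.card J := by
    exact_mod_cast Fintype.card_pos
  have hQR : (0 : ℝ) < ((∏ s ∈ D ∪ R, s : ℕ) : ℝ) := by exact_mod_cast hQ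
  set N := ∏ s ∈ T, s with hNdef
  set Q := ∏ s ∈ D ∪ R, s with hQdef
  let X : ℕ → Fin N → ℕ := fun s i => res s i
  let t : ℕ → Fin N → ℝ := fun r i => (k : ℝ) * c r * (((i : ℕ) % r : ℕ) : ℝ) / r
  -- the bound for one `a`
  have h1 : ∀ a : J, ‖coef μ k‖ ≤ 2 * Real.pi * |(k : ℝ)| * Mx / (Q : ℝ) +
      ∑ i, cm μ N i * ∏ r ∈ R, ‖cexp (cm μ N) X D (fun i' => ee ((σ a : ℝ) * t r i')) i‖ +
      2 * Real.sqrt (tc (cm μ N) X D R) := by
    intro a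
    have h2 := transfer μ N Q (∏ s ∈ T \ (D ∪ R), s) (σ a) hNQ hQ hM hinvM
      (hσP a) k
    have h3 := decouple (cm μ N) hp hs1 X D R (fun r i => ee ((σ a : ℝ) * t r i))
      (fun r _ i => (norm_ee _).le)
      (fun r _ i i' h => by
        have h' : (i : ℕ) % r = (i' : ℕ) % r := h
        show ee ((σ a : ℝ) * ((k : ℝ) * c r * (((i : ℕ) % r : ℕ) : ℝ) / r)) =
          ee ((σ a : ℝ) * ((k : ℝ) * c r * (((i' : ℕ) % r : ℕ) : ℝ) / r))
        rw [h'])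
      (fun i => ∏ s ∈ D, ee (((k * σ a : ℤ) : ℝ) * c s * (((i : ℕ) % s : ℕ) : ℝ) / s))
      (fun i => by
        rw [norm_prod]
        exact (Finset.prod_eq_one fun s _ => norm_ee _).le)
      (fun i i' h => by
        refine Finset.prod_congr rfl fun s hs => ?_
        have h' : (i : ℕ) % s = (i' : ℕ) % s := h s hs
        rw [h'])
    have h4 : ∑ i : Fin N, (cm μ N i : ℂ) * ee (((k * σ a : ℤ) : ℝ) * (i : ℕ) / (Q : ℝ)) =
        ∑ i : Fin N, (cm μ N i : ℂ) *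
          ((∏ s ∈ D, ee (((k * σ a : ℤ) : ℝ) * c s * (((i : ℕ) % s : ℕ) : ℝ) / s)) *
            ∏ r ∈ R, ee ((σ a : ℝ) * t r i)) := by
      refine Finset.sum_congr rfl fun i _ => ?_
      rw [hQdef, hc2 (k * σ a) (i : ℕ), Finset.prod_union hDR]
      congr 2
      refine Finset.prod_congr rfl fun r _ => ?_
      congr 1
      show ((k * σ a : ℤ) : ℝ) * c r * (((i : ℕ) % r : ℕ) : ℝ) / r =
        (σ a : ℝ) * ((k : ℝ) * c r * (((i : ℕ) % r : ℕ) : ℝ) / r)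
      push_cast
      ring
    rw [h4] at h2
    have h5 : ‖coef μ k‖ ≤ 2 * Real.pi * |(k : ℝ)| * σ a / Q + ‖∑ i : Fin N, (cm μ N i : ℂ) *
          ((∏ s ∈ D, ee (((k * σ a : ℤ) : ℝ) * c s * (((i : ℕ) % s : ℕ) : ℝ) / s)) *
            ∏ r ∈ R, ee ((σ a : ℝ) * t r i))‖ := by
      have h6 := norm_sub_norm_le (coef μ k) (∑ i : Fin N, (cm μ N i : ℂ) *
          ((∏ s ∈ D, ee (((k * σ a : ℤ) : ℝ) * c s * (((i : ℕ) % s : ℕ) : ℝ) / s)) *
            ∏ r ∈ R, ee ((σ a : ℝ) * t r i)))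
      linarith
    have h7 : 2 * Real.pi * |(k : ℝ)| * σ a / Q ≤ 2 * Real.pi * |(k : ℝ)| * Mx / (Q : ℝ) := by
      refine div_le_div_of_nonneg_right ?_ hQR.le
      refine mul_le_mul_of_nonneg_left (hMx a) ?_
      positivity
    linarith
  -- the average
  have h2 : ∀ i : Fin N, cm μ N i *
      ∑ a : J, ∏ r ∈ R, ‖cexp (cm μ N) X D (fun i' => ee ((σ a : ℝ) * t r i')) i‖ ≤
      cm μ N i * (Fintype.card J *
        (2 * η₀ + Real.exp (-(2 * δ₀ ^ 2) * ∑ r ∈ R, gini (cm μ N) X D r i))) := by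
    intro i
    rcases (hp i).eq_or_lt with h0 | h0
    · rw [← h0, zero_mul, zero_mul]
    · refine mul_le_mul_of_nonneg_left ?_ (hp i)
      refine average_sigma (cm μ N) hp X D R t σ δ₀ η₀ (1 / (hi : ℝ)) hδ₀ hη₀ hσ ?_ i
        (mass_pos hp X D h0)
      intro r hr i' i'' hne
      have hrT := hRT hr
      have hrp := hT0 r hrT
      have h8 := theta_bound r hrp k (c r) (hk r hrT) (hc1 r (Finset.mem_union_right D hr))
        ((i' : ℕ) % r) ((i'' : ℕ) % r) (Nat.mod_lt _ hrp) (Nat.mod_lt _ hrp) hne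
      refine le_trans ?_ h8
      have hr0 : (0 : ℝ) < r := by exact_mod_cast hrp
      exact one_div_le_one_div_of_le hr0 (by exact_mod_cast hhi r hrT)
  have h3 : (Fintype.card J : ℝ) * ‖coef μ k‖ ≤ (Fintype.card J : ℝ) *
      (2 * Real.pi * |(k : ℝ)| * Mx / (Q : ℝ) +
      (2 * η₀ + ∑ i : Fin N, cm μ N i *
        Real.exp (-(2 * δ₀ ^ 2) * ∑ r ∈ R, gini (cm μ N) X D r i)) +
      2 * Real.sqrt (tc (cm μ N) X D R)) := by
    have h4 : (Fintype.card J : ℝ) * ‖coef μ k‖ = ∑ _a : J, ‖coef μ k‖ := by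
      rw [Finset.sum_const, Finset.card_univ, nsmul_eq_mul]
    rw [h4]
    refine (Finset.sum_le_sum fun a _ => h1 a).trans ?_
    rw [Finset.sum_add_distrib, Finset.sum_add_distrib, Finset.sum_const, Finset.sum_const,
      Finset.card_univ, nsmul_eq_mul, nsmul_eq_mul, Finset.sum_comm]
    have h5 : ∑ i : Fin N, ∑ a : J, cm μ N i *
        ∏ r ∈ R, ‖cexp (cm μ N) X D (fun i' => ee ((σ a : ℝ) * t r i')) i‖ ≤
        (Fintype.card J : ℝ) * (2 * η₀ + ∑ i : Fin N, cm μ N i *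
        Real.exp (-(2 * δ₀ ^ 2) * ∑ r ∈ R, gini (cm μ N) X D r i)) := by
      have h6 : ∀ i : Fin N, ∑ a : J, cm μ N i *
          ∏ r ∈ R, ‖cexp (cm μ N) X D (fun i' => ee ((σ a : ℝ) * t r i')) i‖ ≤
          cm μ N i * (Fintype.card J *
            (2 * η₀ + Real.exp (-(2 * δ₀ ^ 2) * ∑ r ∈ R, gini (cm μ N) X D r i))) := by
        intro i
        rw [← Finset.mul_sum]
        exact h2 i
      refine (Finset.sum_le_sum fun i _ => h6 i).trans ?_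
      refine le_of_eq ?_
      have h7 : ∀ i : Fin N, cm μ N i * (Fintype.card J *
            (2 * η₀ + Real.exp (-(2 * δ₀ ^ 2) * ∑ r ∈ R, gini (cm μ N) X D r i))) =
          (Fintype.card J : ℝ) * (2 * η₀) * cm μ N i + (Fintype.card J : ℝ) * (cm μ N i *
            Real.exp (-(2 * δ₀ ^ 2) * ∑ r ∈ R, gini (cm μ N) X D r i)) := fun i => by ring
      rw [Finset.sum_congr rfl fun i _ => h7 i, Finset.sum_add_distrib, ← Finset.mul_sum,
        ← Finset.mul_sum, hs1]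
      ring
    linarith
  exact le_of_mul_le_mul_left h3 hcard

end Furst96.Spx
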