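import Pool.Agent.H.MP_96e181_an.sps.CircleLib

/-! # Module Pw: powers of the elements of a pairwise coprime set in the window `(y, y²]`

`up y s` is the least power of `s` above `y`; for `2 ≤ s ≤ y` it is at most `y²`. -/

set_option autoImplicit false

open MeasureTheory

namespace Furst96.Spx

open Furst96.Sps

/-- the least power of `s` which is larger than `y` (for `s ≥ 2`). -/
def up (y s : ℕ) : ℕ := s ^ (Nat.log s y + 1)

open Classical in
/-- the powers `up y s` of the `s ∈ P`, `s ≤ y`. -/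
noncomputable def pw (P : Set ℕ) (y : ℕ) : Finset ℕ :=
  ((Finset.Icc 2 y).filter (· ∈ P)).image (up y)

theorem lt_up {y s : ℕ} (hs : 2 ≤ s) : y < up y s :=
  Nat.lt_pow_succ_log_self (by omega) y

theorem up_le {y s : ℕ} (hs : 2 ≤ s) (hsy : s ≤ y) : up y s ≤ y ^ 2 := by
  unfold up
  rw [pow_succ, pow_two]
  exact Nat.mul_le_mul (Nat.pow_log_le_self s (by omega)) hsy

theorem up_coprime {y s t : ℕ} (h : Nat.Coprime s t) : Nat.Coprime (up y s) (up y t) :=
  Nat.Coprime.pow _ _ h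

theorem mem_pw {P : Set ℕ} {y t : ℕ} :
    t ∈ pw P y ↔ ∃ s, (2 ≤ s ∧ s ≤ y) ∧ s ∈ P ∧ up y s = t := by
  classical
  unfold pw
  simp only [Finset.mem_image, Finset.mem_filter, Finset.mem_Icc, and_assoc]

theorem pw_spec {P : Set ℕ} {y t : ℕ} (h : t ∈ pw P y) :
    y < t ∧ t ≤ y ^ 2 ∧ t ∈ Submonoid.closure P := by
  obtain ⟨s, ⟨h1, h2⟩, h3, rfl⟩ := mem_pw.1 h
  exact ⟨lt_up h1, up_le h1 h2, Submonoid.pow_mem _ (Submonoid.subset_closure h3) _⟩

theorem pw_coprime {P : Set ℕ} (hco : P.Pairwise Nat.Coprime) (y : ℕ) :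
    (pw P y : Set ℕ).Pairwise Nat.Coprime := by
  intro t ht t' ht' hne
  obtain ⟨s, -, h3, rfl⟩ := mem_pw.1 (Finset.mem_coe.1 ht)
  obtain ⟨s', -, h3', rfl⟩ := mem_pw.1 (Finset.mem_coe.1 ht')
  exact up_coprime (hco h3 h3' fun h => hne (by rw [h]))

theorem pw_card {P : Set ℕ} (hP : ∀ p ∈ P, 2 ≤ p) (hco : P.Pairwise Nat.Coprime) (y : ℕ) :
    (pw P y).card = (P ∩ Set.Iic y).ncard := by
  classical
  unfold pw
  rw [Finset.card_image_of_injOn]
  · have h : (((Finset.Icc 2 y).filter (· ∈ P) : Finset ℕ) : Set ℕ) = P ∩ Set.Iic y := by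
      ext s
      simp only [Finset.coe_filter, Finset.mem_Icc, Set.mem_ofPred_eq, Set.mem_inter_iff,
        Set.mem_Iic]
      exact ⟨fun h => ⟨h.2, h.1.2⟩, fun h => ⟨⟨hP s h.1, h.2⟩, h.1⟩⟩
    rw [← h, Set.ncard_coe_finset]
  · intro s hs t ht hst
    have hs' := Finset.mem_filter.1 (Finset.mem_coe.1 hs)
    have ht' := Finset.mem_filter.1 (Finset.mem_coe.1 ht)
    by_contra hne
    have h1 : Nat.Coprime (up y s) (up y t) := up_coprime (hco hs'.2 ht'.2 hne)
    have h2 : up y s = up y t := hst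
    rw [← h2, Nat.coprime_self] at h1
    have h3 : y < up y s := lt_up (hP s hs'.2)
    have h4 := (Finset.mem_Icc.1 hs'.1)
    omega

end Furst96.Spx
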