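import Pool.Agent.H.MP_96e181_an.sps.BaseDvd
import Pool.Agent.H.MP_96e181_an.spx.Pw

/-! # Module Phi: a random product of powers of elements of `P` makes every small angle macroscopic

As `sps.Phi`, for a pairwise coprime set `P`; the window of primes is replaced by the powers
`pw P y`. -/

set_option autoImplicit false

open MeasureTheory

namespace Furst96.Spx

open Furst96.Sps

open Classical in
theorem phi_step (θ : UnitAddCircle) (r : ℝ) (hr : 0 < r) (S : Finset ℕ)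
    (hco : (S : Set ℕ).Pairwise Nat.Coprime) (lo hi : ℕ) (hlo1 : 1 ≤ lo) (hlo : ∀ s ∈ S, lo ≤ s)
    (hhi : ∀ s ∈ S, s ≤ hi) (h2 : 2 * (hi : ℝ) * r < 1) (hθ : r / lo ≤ ‖θ‖) :
    (S.filter (fun s => ‖s • θ‖ < r)).card ≤ 1 := by
  rw [Finset.card_le_one]
  intro s hs s' hs'
  by_contra hne
  rw [Finset.mem_filter] at hs hs'
  obtain ⟨hsS, hsr⟩ := hs
  obtain ⟨hsS', hsr'⟩ := hs'
  set ρ : ℝ := max ‖s • θ‖ ‖s' • θ‖ with hρ
  have hρr : ρ < r := max_lt hsr hsr'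
  have hex : ∃ c : ℕ, 1 ≤ c ∧ ‖c • θ‖ ≤ ρ := ⟨s, hlo1.trans (hlo s hsS), le_max_left _ _⟩
  set b₀ := Nat.find hex with hb₀def
  obtain ⟨hb1, hb2⟩ := Nat.find_spec hex
  have hmin : ∀ c : ℕ, 1 ≤ c → c < b₀ → ρ < ‖c • θ‖ := by
    intro c hc1 hc2
    by_contra hcon
    exact Nat.find_min hex hc2 ⟨hc1, not_lt.mp hcon⟩
  have hQ : 2 * (hi : ℝ) * ρ < 1 := by
    have h0 : (0 : ℝ) ≤ 2 * (hi : ℝ) := by positivity
    exact lt_of_le_of_lt (mul_le_mul_of_nonneg_left hρr.le h0) h2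
  have h1 := base_dvd θ ρ hi b₀ hQ hb1 hb2 hmin s (hlo1.trans (hlo s hsS)) (hhi s hsS)
    (le_max_left _ _)
  have h1' := base_dvd θ ρ hi b₀ hQ hb1 hb2 hmin s' (hlo1.trans (hlo s' hsS')) (hhi s' hsS')
    (le_max_right _ _)
  have hb₀1 : b₀ = 1 := by
    have hco : Nat.Coprime s s' := hco (Finset.mem_coe.2 hsS) (Finset.mem_coe.2 hsS') hne
    exact Nat.eq_one_of_dvd_coprimes hco h1.1 h1'.1
  have h3 := h1.2
  rw [hb₀1, Nat.div_one, one_smul] at h3
  have hs0 : (0 : ℝ) < (lo : ℝ) := by exact_mod_cast hlo1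
  have hslo : (lo : ℝ) ≤ (s : ℝ) := by exact_mod_cast hlo s hsS
  have h4 : r ≤ ‖θ‖ * lo := by rwa [div_le_iff₀ hs0] at hθ
  have h5 : ‖θ‖ * lo ≤ (s : ℝ) * ‖θ‖ := by
    rw [mul_comm]
    exact mul_le_mul_of_nonneg_right hslo (norm_nonneg _)
  linarith [h3 ▸ hsr]

open Classical in
/-- the property which is improved step by step -/
def PhiG (P : Set ℕ) (δ r : ℝ) (B : ℕ) (η : ℝ) : Prop :=
  ∃ (J : Type) (_ : Fintype J) (_ : Nonempty J) (σ : J → ℕ),
    (∀ a, σ a ∈ Submonoid.closure P) ∧ (∀ a, σ a ≤ B) ∧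
    ∀ θ : UnitAddCircle, r ≤ ‖θ‖ →
      ((Finset.univ.filter (fun a => ‖σ a • θ‖ < δ)).card : ℝ) ≤ η * Fintype.card J

open Classical in
theorem phi_L {P : Set ℕ} {δ r η : ℝ} {B : ℕ} (h : PhiG P δ r B η) (hη : 0 ≤ η) (hr : 0 < r)
    (S : Finset ℕ) (hS : 0 < S.card) (hP : ∀ s ∈ S, s ∈ Submonoid.closure P)
    (hco : (S : Set ℕ).Pairwise Nat.Coprime) (lo hi : ℕ)
    (hlo1 : 1 ≤ lo) (hlo : ∀ s ∈ S, lo ≤ s) (hhi : ∀ s ∈ S, s ≤ hi)
    (h2 : 2 * (hi : ℝ) * r < 1) : PhiG P δ (r / lo) (B * hi) (η + 1 / S.card) := by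
  obtain ⟨J, _, _, σ, h3, h4, h5⟩ := h
  have hSne : Nonempty S := by
    obtain ⟨s, hs⟩ := Finset.card_pos.1 hS
    exact ⟨⟨s, hs⟩⟩
  refine ⟨J × S, inferInstance, inferInstance, fun a => σ a.1 * (a.2 : ℕ), ?_, ?_, ?_⟩
  · intro a
    exact Submonoid.mul_mem _ (h3 a.1) (hP _ a.2.2)
  · intro a
    exact Nat.mul_le_mul (h4 a.1) (hhi _ a.2.2)
  · intro θ hθ
    have hJ : (0 : ℝ) ≤ Fintype.card J := Nat.cast_nonneg _
    have e1 : ((Finset.univ.filter (fun a : J × S => ‖(σ a.1 * (a.2 : ℕ)) • θ‖ < δ)).card : ℝ) =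
        ∑ s : S, ((Finset.univ.filter (fun a : J => ‖σ a • ((s : ℕ) • θ)‖ < δ)).card : ℝ) := by
      simp only [Finset.card_filter]
      push_cast
      rw [Fintype.sum_prod_type_right]
      simp only [mul_smul]
    have e2 : ∀ s : S, ((Finset.univ.filter (fun a : J => ‖σ a • ((s : ℕ) • θ)‖ < δ)).card : ℝ) ≤
        η * Fintype.card J + (if ‖(s : ℕ) • θ‖ < r then (Fintype.card J : ℝ) else 0) := by
      intro s
      by_cases hs : ‖(s : ℕ) • θ‖ < r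
      · rw [if_pos hs]
        have h6 : ((Finset.univ.filter (fun a : J => ‖σ a • ((s : ℕ) • θ)‖ < δ)).card : ℝ) ≤
            Fintype.card J := by
          exact_mod_cast Finset.card_le_univ _
        have h7 : 0 ≤ η * Fintype.card J := mul_nonneg hη hJ
        linarith
      · rw [if_neg hs]
        have := h5 ((s : ℕ) • θ) (not_lt.1 hs)
        linarith
    have e3 : ∑ s : S, (if ‖(s : ℕ) • θ‖ < r then (Fintype.card J : ℝ) else 0) ≤
        Fintype.card J := by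
      rw [Finset.sum_coe_sort S (fun s => if ‖s • θ‖ < r then (Fintype.card J : ℝ) else 0),
        ← Finset.sum_filter, Finset.sum_const, nsmul_eq_mul]
      have h6 := phi_step θ r hr S hco lo hi hlo1 hlo hhi h2 hθ
      have h7 : ((S.filter (fun s => ‖s • θ‖ < r)).card : ℝ) ≤ 1 := by exact_mod_cast h6
      nlinarith
    rw [e1]
    have hSc : (0 : ℝ) < S.card := by exact_mod_cast hS
    calc _ ≤ ∑ s : S, (η * Fintype.card J +
          (if ‖(s : ℕ) • θ‖ < r then (Fintype.card J : ℝ) else 0)) :=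
          Finset.sum_le_sum fun s _ => e2 s
      _ = S.card * (η * Fintype.card J) +
          ∑ s : S, (if ‖(s : ℕ) • θ‖ < r then (Fintype.card J : ℝ) else 0) := by
          rw [Finset.sum_add_distrib, Finset.sum_const, nsmul_eq_mul, Finset.card_univ,
            Fintype.card_coe]
      _ ≤ S.card * (η * Fintype.card J) + Fintype.card J := by linarith
      _ = (η + 1 / S.card) * Fintype.card (J × S) := by
          rw [Fintype.card_prod, Fintype.card_coe]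
          push_cast
          field_simp

open Classical in
theorem phi_win {P : Set ℕ} (hco : P.Pairwise Nat.Coprime) {δ η : ℝ} {B m : ℕ} (hm : 1 ≤ m)
    (hη : 0 ≤ η) (h : PhiG P δ (1 / 2 ^ (4 * m)) B η) (hS : 0 < (pw P (2 ^ m)).card) :
    PhiG P δ (1 / 2 ^ (8 * m)) (B * 2 ^ (8 * m)) (η + 4 / (pw P (2 ^ m)).card) := by
  have hmem : ∀ s ∈ pw P (2 ^ m), s ∈ Submonoid.closure P ∧ 2 ^ m ≤ s ∧ s ≤ 2 ^ (2 * m) := by
    intro s hs
    obtain ⟨h1, h2, h3⟩ := pw_spec hs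
    refine ⟨h3, h1.le, h2.trans (le_of_eq ?_)⟩
    rw [← pow_mul, mul_comm]
  have hSc : (0 : ℝ) < (pw P (2 ^ m)).card := by exact_mod_cast hS
  have hstep : ∀ (k : ℕ) (B' : ℕ) (η' : ℝ), 4 ≤ k → 0 ≤ η' → PhiG P δ (1 / 2 ^ (k * m)) B' η' →
      PhiG P δ (1 / 2 ^ ((k + 1) * m)) (B' * 2 ^ (2 * m)) (η' + 1 / (pw P (2 ^ m)).card) := by
    intro k B' η' hk hη' h'
    have h1 := phi_L h' hη' (by positivity) (pw P (2 ^ m)) hS (fun s hs => (hmem s hs).1)
      (pw_coprime hco _) (2 ^ m) (2 ^ (2 * m)) Nat.one_le_two_pow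
      (fun s hs => (hmem s hs).2.1) (fun s hs => (hmem s hs).2.2) (by
        push_cast
        rw [mul_one_div, div_lt_one (by positivity), ← pow_succ']
        exact pow_lt_pow_right₀ (by norm_num) (by nlinarith))
    have e : (1 / 2 ^ (k * m) / ((2 ^ m : ℕ) : ℝ) : ℝ) = 1 / 2 ^ ((k + 1) * m) := by
      push_cast
      rw [div_div, ← pow_add]
      congr 2
      ring
    rwa [e] at h1
  have s1 := hstep 4 B η (by norm_num) hη h
  have s2 := hstep 5 _ _ (by norm_num) (by positivity) s1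
  have s3 := hstep 6 _ _ (by norm_num) (by positivity) s2
  have s4 := hstep 7 _ _ (by norm_num) (by positivity) s3
  have e1 : B * 2 ^ (2 * m) * 2 ^ (2 * m) * 2 ^ (2 * m) * 2 ^ (2 * m) = B * 2 ^ (8 * m) := by
    rw [mul_assoc, mul_assoc, mul_assoc, ← pow_add, ← pow_add, ← pow_add]
    congr 2
    ring
  have e2 : η + 1 / ((pw P (2 ^ m)).card : ℝ) + 1 / (pw P (2 ^ m)).card +
      1 / (pw P (2 ^ m)).card + 1 / (pw P (2 ^ m)).card = η + 4 / (pw P (2 ^ m)).card := by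
    ring
  rw [e1, e2] at s4
  exact s4

open Classical in
theorem phi (P : Set ℕ) (hco : P.Pairwise Nat.Coprime) (j₀ d : ℕ) (_hj₀ : 1 ≤ j₀)
    (hpos : ∀ i, j₀ ≤ i → i < j₀ + d → 0 < (pw P (2 ^ 2 ^ i)).card) :
    ∃ (J : Type) (_ : Fintype J) (_ : Nonempty J) (σ : J → ℕ),
      (∀ a, σ a ∈ Submonoid.closure P) ∧ (∀ a, σ a ≤ 2 ^ (8 * 2 ^ (j₀ + d))) ∧
      ∀ θ : UnitAddCircle, 1 / (2 : ℝ) ^ (4 * 2 ^ (j₀ + d)) ≤ ‖θ‖ →
        ((Finset.univ.filter (fun a => ‖σ a • θ‖ < 1 / (2 : ℝ) ^ (4 * 2 ^ j₀))).card : ℝ) ≤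
          (∑ i ∈ Finset.range d, 4 / ((pw P (2 ^ 2 ^ (j₀ + i))).card : ℝ)) *
            Fintype.card J := by
  obtain ⟨J, i1, i2, σ, h1, h2, h3⟩ : PhiG P (1 / (2 : ℝ) ^ (4 * 2 ^ j₀))
      (1 / (2 : ℝ) ^ (4 * 2 ^ (j₀ + d))) (2 ^ (8 * 2 ^ (j₀ + d) - 8 * 2 ^ j₀))
      (∑ i ∈ Finset.range d, 4 / ((pw P (2 ^ 2 ^ (j₀ + i))).card : ℝ)) := by
    induction d with
    | zero =>
      refine ⟨Unit, inferInstance, inferInstance, fun _ => 1, ?_, ?_, ?_⟩
      · intro a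
        exact Submonoid.one_mem _
      · intro a
        exact Nat.one_le_two_pow
      · intro θ hθ
        have h0 : (Finset.univ.filter (fun a : Unit => ‖(1 : ℕ) • θ‖ <
            1 / (2 : ℝ) ^ (4 * 2 ^ j₀))) = ∅ := by
          rw [Finset.filter_eq_empty_iff]
          intro a _
          rw [one_smul, not_lt]
          exact hθ
        rw [h0]
        simp
    | succ d ih =>
      have h1 := phi_win hco (m := 2 ^ (j₀ + d)) Nat.one_le_two_pow (by positivity)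
        (ih (fun i hi hi' => hpos i hi (by omega))) (hpos (j₀ + d) (by omega) (by omega))
      have e1 : 4 * 2 ^ (j₀ + (d + 1)) = 8 * 2 ^ (j₀ + d) := by
        rw [← add_assoc, pow_succ]; ring
      have e2 : 2 ^ (8 * 2 ^ (j₀ + (d + 1)) - 8 * 2 ^ j₀) =
          2 ^ (8 * 2 ^ (j₀ + d) - 8 * 2 ^ j₀) * 2 ^ (8 * 2 ^ (j₀ + d)) := by
        rw [← pow_add]
        congr 1
        have h5 : 2 ^ j₀ ≤ 2 ^ (j₀ + d) := Nat.pow_le_pow_right (by norm_num) (by omega)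
        have h6 : 2 ^ (j₀ + (d + 1)) = 2 * 2 ^ (j₀ + d) := by
          rw [← add_assoc, pow_succ]; ring
        omega
      rw [e1, e2, Finset.sum_range_succ]
      exact h1
  refine ⟨J, i1, i2, σ, h1, ?_, ?_⟩
  · intro a
    exact (h2 a).trans (Nat.pow_le_pow_right (by norm_num) (Nat.sub_le _ _))
  · intro θ hθ
    exact h3 θ hθ

end Furst96.Spx
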