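import Pool.Agent.H.MP_96e181_an.spx.NearGen
import Pool.Agent.H.MP_96e181_an.spx.Final

/-! # Module FinalGen: the estimate of a Fourier coefficient, uniformly over all invariant
probability measures with little mass on the torsion points of small order -/

set_option autoImplicit false

open MeasureTheory Filter Topology

namespace Furst96.Spx

open Furst96.Sps

theorem coef_uniform (P : Set ℕ) (hP : ∀ p ∈ P, 2 ≤ p) (hco : P.Pairwise Nat.Coprime)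
    (h0 : ∀ᶠ j : ℕ in atTop, 0 < (pw P (2 ^ 2 ^ j)).card)
    (h1 : Summable fun j : ℕ => 1 / ((pw P (2 ^ 2 ^ j)).card : ℝ))
    (h2 : ∀ C : ℝ, ∃ᶠ y : ℕ in atTop, C * Real.log y ^ 4 ≤ ((P ∩ Set.Iic y).ncard : ℝ))
    (k : ℤ) (hk : k ≠ 0) (ε : ℝ) (hε0 : 0 < ε) (hε1 : ε ≤ 1) :
    ∃ B : ℕ, 1 ≤ B ∧ ∃ δ : ℝ, 0 < δ ∧ ∀ μ : Measure UnitAddCircle, IsProbabilityMeasure μ →
      (∀ p ∈ P, Inv μ p) → μ.real {x : UnitAddCircle | B • x = 0} ≤ δ →
      ‖coef μ k‖ ≤ 9 * ε + 2 * Real.sqrt (2 * ε) := by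
  classical
  -- the tail sums
  have htail : ∀ η : ℝ, 0 < η → ∃ j₀ : ℕ, 1 ≤ j₀ ∧ (∀ i, j₀ ≤ i → 0 < (pw P (2 ^ 2 ^ i)).card) ∧
      ∀ j, j₀ ≤ j → ∑' i : ℕ, 64 / ((pw P (2 ^ 2 ^ (j + i))).card : ℝ) < η := by
    intro η hη
    obtain ⟨j1, hj1⟩ := eventually_atTop.1 h0
    have hsum4 : Summable fun j : ℕ => 64 / ((pw P (2 ^ 2 ^ j)).card : ℝ) := by
      exact (h1.mul_left 64).congr fun j => by ring
    have h3 := tendsto_sum_nat_add fun j : ℕ => 64 / ((pw P (2 ^ 2 ^ j)).card : ℝ)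
    obtain ⟨j2, hj2⟩ := eventually_atTop.1 (h3.eventually (gt_mem_nhds hη))
    refine ⟨max 1 (max j1 j2), le_max_left _ _, fun i hi => hj1 i ?_, fun j hj => ?_⟩
    · exact (le_trans (le_max_left _ _) (le_max_right _ _)).trans hi
    · have h4 := hj2 j (((le_max_right _ _).trans (le_max_right _ _)).trans hj)
      have h5 : (fun i : ℕ => 64 / ((pw P (2 ^ 2 ^ (j + i))).card : ℝ)) =
          fun i : ℕ => 64 / ((pw P (2 ^ 2 ^ (i + j))).card : ℝ) := by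
        funext i
        rw [add_comm]
      rw [h5]
      exact h4
  have hsum4 : ∀ j : ℕ, Summable fun i : ℕ => 64 / ((pw P (2 ^ 2 ^ (j + i))).card : ℝ) := by
    intro j
    have h3 : Summable fun j : ℕ => 64 / ((pw P (2 ^ 2 ^ j)).card : ℝ) := by
      exact (h1.mul_left 64).congr fun j => by ring
    have h4 := (summable_nat_add_iff j).2 h3
    refine h4.congr fun i => ?_
    rw [add_comm]
  obtain ⟨j₀, hj₀, hpos₀, htail₀⟩ := htail ε hε0
  set δ₀ : ℝ := 1 / (2 : ℝ) ^ (4 * 2 ^ j₀) with hδ₀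
  have hδ₀0 : 0 < δ₀ := by positivity
  have hδ₀1 : δ₀ ≤ 1 / 2 := by
    rw [hδ₀]
    refine one_div_le_one_div_of_le (by norm_num) ?_
    calc (2 : ℝ) = 2 ^ 1 := (pow_one _).symm
      _ ≤ 2 ^ (4 * 2 ^ j₀) := pow_le_pow_right₀ (by norm_num) (by
        have : 0 < 2 ^ j₀ := by positivity
        omega)
  set κ : ℝ := 2 * δ₀ ^ 2 with hκ
  have hκ0 : 0 < κ := by positivity
  have hκ1 : κ ≤ 1 := by nlinarith
  obtain ⟨A, B, hA, hB, hsel⟩ := select_numeric ε κ hε0 hε1 hκ0 hκ1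
  obtain ⟨j1, hj1, hpos1, htail1⟩ := htail (ε / 4) (by positivity)
  -- choose w
  have hev : ∀ᶠ w : ℕ in atTop, 1 ≤ w ∧ 2 ^ j₀ ≤ w ∧ 2 ^ j1 ≤ w ∧
      Real.exp (-((A * w ^ 4 : ℕ) / 8 : ℝ)) ≤ ε ∧
      (192 * (A * w ^ 4 : ℕ) : ℝ) / (2 : ℝ) ^ (3 * w) ≤ ε ∧
      2 / ε < (2 : ℝ) ^ (A * w ^ 4) ∧
      (2 * Real.pi * |(k : ℝ)|) * (2 : ℝ) ^ (16 * w) / (2 : ℝ) ^ (w * (B * w)) ≤ ε := by
    filter_upwards [eventually_ge_atTop 1, eventually_ge_atTop (2 ^ j₀),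
      eventually_ge_atTop (2 ^ j1), growth1 A hA ε hε0, growth2 (4 * A) ε hε0,
      growth3 A hA (2 / ε), growth5 B hB (2 * Real.pi * |(k : ℝ)|) (by positivity) ε hε0]
      with w g1 g2 g3 g4 g5 g6 g8
    refine ⟨g1, g2, g3, g4, ?_, g6, g8⟩
    refine le_trans (le_of_eq ?_) g5
    push_cast
    ring
  obtain ⟨w, ⟨T, hT, hTco, hTc⟩, hw1, hwj₀, hwj1, g1, g2, g3, g5⟩ :=
    ((frequently_window P hP hco h2 (192 * A) k hk).and_eventually hev).exists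
  have hTc' : T.card = 192 * (A * w ^ 4) := by rw [hTc]; ring
  set G : ℕ := A * w ^ 4 with hGdef
  have hTone : ∀ s ∈ T, 1 < s := fun s hs => lt_of_le_of_lt Nat.one_le_two_pow (hT s hs).2.1
  have hTpos : ∀ s ∈ T, 0 < s := fun s hs => zero_lt_one.trans (hTone s hs)
  have hG1 : 1 ≤ G := by
    rw [hGdef]
    exact Nat.mul_pos hA (by positivity)
  -- the scale j for low_mass
  obtain ⟨j, hja, hjb⟩ := exists_pow_two (6 * w * G) (by
    have : 0 < w * G := Nat.mul_pos hw1 hG1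
    nlinarith)
  have hjj1 : j1 ≤ j := by
    have h3 : 2 ^ j1 ≤ 2 ^ j := by
      refine le_trans ?_ hja
      calc 2 ^ j1 ≤ w := hwj1
        _ = w * 1 := (mul_one w).symm
        _ ≤ 6 * w * G := Nat.mul_le_mul (by omega) hG1
    exact (Nat.pow_le_pow_iff_right (by norm_num)).1 h3
  refine ⟨(2 ^ (2 * 2 ^ j)).factorial, Nat.factorial_pos _, ε / 4, by positivity, ?_⟩
  intro μ _ hinv hδ
  have hTinv : ∀ s ∈ T, Inv μ s := fun s hs => inv_closure hinv (hT s hs).1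
  have hX : μ.real (Near (2 ^ 2 ^ j) (1 / (2 : ℝ) ^ (16 * 2 ^ j))) < ε / 2 := by
    have h3 := near_scales_gen μ P hco hinv j (fun i hi => hpos1 i (hjj1.trans hi)) h1
    have h4 := htail1 j hjj1
    linarith
  have hlow := low_mass μ w G j ε hε0 T hTinv hTco (fun s hs => ⟨(hT s hs).2.1, (hT s hs).2.2.1⟩)
    hTc' hja (by
      calc 2 ^ j ≤ 2 * (6 * w * G) := hjb
        _ = 12 * w * G := by ring) hX g3
  -- select
  set N : ℕ := ∏ s ∈ T, s with hN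
  have hN0 : 0 < N := Finset.prod_pos fun s hs => hTpos s hs
  have hmass : ∀ i : Fin N, mass (cm μ N) (fun s i => res s i) T i = cm μ N i := fun i =>
    mass_full T hTco (cm μ N) i
  obtain ⟨D, hD, R, hR, hRc, hs1, hs2⟩ := hsel w hw1 g1 g2 (cm μ N) (cm_nonneg μ N)
    (sum_cm μ hN0) (fun s i => res s i) T hTc'
    (by
      intro s hs i
      exact lt_of_lt_of_le (Nat.mod_lt _ (hTpos s hs)) (hT s hs).2.2.1)
    (by
      refine le_trans (le_of_eq ?_) hlow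
      refine Finset.sum_congr rfl fun i _ => ?_
      rw [hmass i]
      have h4 : Real.exp (-((G : ℝ) * Real.log 2)) = 1 / (2 : ℝ) ^ G := by
        rw [Real.exp_neg, mul_comm, Real.exp_mul, Real.exp_log (by norm_num), Real.rpow_natCast,
          one_div]
      rw [h4])
  -- phi
  obtain ⟨j2, hj2a, hj2b⟩ := exists_pow_two w hw1
  have hj02 : j₀ ≤ j2 := by
    have h3 : 2 ^ j₀ ≤ 2 ^ j2 := hwj₀.trans hj2a
    exact (Nat.pow_le_pow_iff_right (by norm_num)).1 h3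
  obtain ⟨d, hd⟩ := Nat.exists_eq_add_of_le hj02
  obtain ⟨J, hJ1, hJ2, σ, hσP, hσM, hσ⟩ := phi P hco j₀ d hj₀ (fun i hi _ => hpos₀ i hi)
  rw [← hd] at hσM hσ
  have hη : ∑ i ∈ Finset.range d, 4 / ((pw P (2 ^ 2 ^ (j₀ + i))).card : ℝ) ≤ ε := by
    have h3 : ∀ i ∈ Finset.range d, 4 / ((pw P (2 ^ 2 ^ (j₀ + i))).card : ℝ) ≤
        64 / ((pw P (2 ^ 2 ^ (j₀ + i))).card : ℝ) := fun i _ =>
      div_le_div_of_nonneg_right (by norm_num) (Nat.cast_nonneg _)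
    refine (Finset.sum_le_sum h3).trans (le_trans ?_ (htail₀ j₀ le_rfl).le)
    exact (hsum4 j₀).sum_le_tsum _ fun i _ => by positivity
  have hcore := core μ T hTco hTpos hTinv k (fun s hs => (hT s hs).2.2.2)
    D R hD hR σ (fun a => inv_closure hinv (hσP a)) ((2 : ℝ) ^ (16 * w))
    (by
      intro a
      have h3 : σ a ≤ 2 ^ (16 * w) := (hσM a).trans
        (Nat.pow_le_pow_right (by norm_num) (by omega))
      exact_mod_cast h3)
    δ₀ ε hδ₀0.le hε0.le (2 ^ (3 * w)) (fun s hs => (hT s hs).2.2.1)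
    (by
      intro θ hθ
      refine (hσ θ (le_trans ?_ hθ)).trans (mul_le_mul_of_nonneg_right hη (by positivity))
      push_cast
      refine one_div_le_one_div_of_le (by positivity) ?_
      exact pow_le_pow_right₀ (by norm_num) (by omega))
  rw [← hN] at hcore
  -- the product Q is large
  have hQ : (2 : ℝ) ^ (w * (B * w)) ≤ ((∏ s ∈ D ∪ R, s : ℕ) : ℝ) := by
    have hRT : R ⊆ T := hR.trans Finset.sdiff_subset
    have h3 : (2 ^ w) ^ R.card ≤ ∏ s ∈ R, s :=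
      Finset.pow_card_le_prod R (fun s => s) (2 ^ w) fun s hs => (hT s (hRT hs)).2.1.le
    have h4 : ∏ s ∈ R, s ≤ ∏ s ∈ D ∪ R, s := by
      refine Finset.prod_le_prod_of_subset_of_one_le' Finset.subset_union_right fun s hs _ => ?_
      exact (hTone s ((Finset.union_subset hD hRT) hs)).le
    have h5 : 2 ^ (w * (B * w)) ≤ ∏ s ∈ D ∪ R, s := by
      rw [pow_mul, ← hRc]
      exact h3.trans h4
    exact_mod_cast h5
  have hfirst : 2 * Real.pi * |(k : ℝ)| * (2 : ℝ) ^ (16 * w) / ((∏ s ∈ D ∪ R, s : ℕ) : ℝ) ≤ ε := by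
    refine le_trans ?_ g5
    exact div_le_div_of_nonneg_left (by positivity) (by positivity) hQ
  have hsqrt : Real.sqrt (tc (cm μ N) (fun s i => res s i) D R) ≤ Real.sqrt (2 * ε) :=
    Real.sqrt_le_sqrt hs2
  rw [← hκ] at hcore
  linarith

theorem coef_uniform' (P : Set ℕ) (hP : ∀ p ∈ P, 2 ≤ p) (hco : P.Pairwise Nat.Coprime)
    (h1 : Summable fun j : ℕ => 1 / ((P ∩ Set.Iic (2 ^ 2 ^ j)).ncard : ℝ))
    (h2 : ∀ C : ℝ, ∃ᶠ y : ℕ in atTop, C * Real.log y ^ 4 ≤ ((P ∩ Set.Iic y).ncard : ℝ))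
    (k : ℤ) (hk : k ≠ 0) (η : ℝ) (hη : 0 < η) :
    ∃ B : ℕ, 1 ≤ B ∧ ∃ δ : ℝ, 0 < δ ∧ ∀ μ : Measure UnitAddCircle, IsProbabilityMeasure μ →
      (∀ p ∈ P, Inv μ p) → μ.real {x : UnitAddCircle | B • x = 0} ≤ δ → ‖coef μ k‖ ≤ η := by
  have hne : P.Nonempty := by
    by_contra hcon
    rw [Set.not_nonempty_iff_eq_empty] at hcon
    have h3 := (h2 1).and_eventually (eventually_ge_atTop 3)
    obtain ⟨y, hy, hy3⟩ := h3.exists
    rw [hcon, Set.empty_inter, Set.ncard_empty, one_mul, Nat.cast_zero] at hy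
    have h4 : 0 < Real.log y := Real.log_pos (by exact_mod_cast (by omega : 1 < y))
    have h5 : 0 < Real.log y ^ 4 := by positivity
    linarith
  have h1' : Summable fun j : ℕ => 1 / ((pw P (2 ^ 2 ^ j)).card : ℝ) := by
    simpa only [pw_card hP hco] using h1
  have h5 : Tendsto (fun ε : ℝ => 9 * ε + 2 * Real.sqrt (2 * ε)) (𝓝[>] 0) (𝓝 0) := by
    have : Continuous fun ε : ℝ => 9 * ε + 2 * Real.sqrt (2 * ε) := by fun_prop
    have h6 := (this.tendsto 0).mono_left (nhdsWithin_le_nhds (s := Set.Ioi 0))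
    simpa using h6
  have h4 : ∀ᶠ ε : ℝ in 𝓝[>] 0, ε ≤ 1 := by
    have : ∀ᶠ ε : ℝ in 𝓝 0, ε ≤ 1 := eventually_le_nhds (by norm_num)
    exact this.filter_mono nhdsWithin_le_nhds
  obtain ⟨ε, ⟨hε0, hε1⟩, hε⟩ := ((eventually_mem_nhdsWithin.and h4).and
    (h5.eventually_le_const hη)).exists
  obtain ⟨B, hB, δ, hδ, h6⟩ := coef_uniform P hP hco (eventually_pos P hP hco hne) h1' h2 k hk ε
    hε0 hε1
  exact ⟨B, hB, δ, hδ, fun μ hμ hinv hm => (h6 μ hμ hinv hm).trans hε⟩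

end Furst96.Spx
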