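import Pool.Agent.H.MP_96e181_an.spx.Count
import Pool.Agent.H.MP_96e181_an.spx.Pw

/-! # Module Near: atomless measures invariant under a pairwise coprime set are uniformly
Diophantine

`Gm μ a ρ = ∑_{a < i ≤ 2a} μ(Near (2^i) ρ)`.  By `count_point`, for a pairwise coprime finite set `S`
of multipliers in `[lo, hi]`, `Gm ρ ≤ Gm (ρ 2^(2a) / lo) + 8a / #S`.  With the powers
`pw P (2^m)`, `4a ≤ m`, eight such steps lead from `ρ = 2^(-4m)` to `2^(-8m)`.  As `ρ → 0`,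
`Gm ρ → 0` because `μ` has no atoms. -/

set_option autoImplicit false

open MeasureTheory Filter Topology

namespace Furst96.Spx

open Furst96.Sps

/-- the sum over the scales `a < i ≤ 2a`. -/
noncomputable def Gm (μ : Measure UnitAddCircle) (a : ℕ) (ρ : ℝ) : ℝ :=
  ∑ i ∈ Finset.Ioc a (2 * a), μ.real (Near (2 ^ i) ρ)

theorem gm_mono (μ : Measure UnitAddCircle) [IsProbabilityMeasure μ] (a : ℕ) {ρ ρ' : ℝ}
    (h : ρ ≤ ρ') : Gm μ a ρ ≤ Gm μ a ρ' :=
  Finset.sum_le_sum fun _ _ => measureReal_mono (near_mono le_rfl h)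

theorem le_gm (μ : Measure UnitAddCircle) [IsProbabilityMeasure μ] (a : ℕ) (ρ : ℝ) :
    (a : ℝ) * μ.real (Near (2 ^ a) ρ) ≤ Gm μ a ρ := by
  have h1 : ∑ _i ∈ Finset.Ioc a (2 * a), μ.real (Near (2 ^ a) ρ) ≤ Gm μ a ρ := by
    refine Finset.sum_le_sum fun i hi => measureReal_mono (near_mono ?_ le_rfl)
    exact Nat.pow_le_pow_right (by norm_num) (Finset.mem_Ioc.1 hi).1.le
  rw [Finset.sum_const, Nat.card_Ioc, nsmul_eq_mul] at h1
  have h2 : ((2 * a - a : ℕ) : ℝ) = a := by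
    have : 2 * a - a = a := by omega
    rw [this]
  rwa [h2] at h1

/-- if every point is in at most `m` of the sets, the measures have sum at most `m`. -/
theorem sum_real_le {ι : Type*} (μ : Measure UnitAddCircle) [IsProbabilityMeasure μ]
    (F : Finset ι) (B : ι → Set UnitAddCircle) (hB : ∀ j ∈ F, MeasurableSet (B j)) (m : ℝ)
    (h : ∀ x, ∑ j ∈ F, (B j).indicator (fun _ => (1 : ℝ)) x ≤ m) : ∑ j ∈ F, μ.real (B j) ≤ m := by
  have hint : ∀ j ∈ F, Integrable ((B j).indicator fun _ => (1 : ℝ)) μ := fun j hj =>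
    (integrable_const 1).indicator (hB j hj)
  have h1 : ∫ x, (∑ j ∈ F, (B j).indicator (fun _ => (1 : ℝ)) x) ∂μ = ∑ j ∈ F, μ.real (B j) := by
    rw [integral_finsetSum _ hint]
    refine Finset.sum_congr rfl fun j hj => ?_
    rw [integral_indicator_const _ (hB j hj), smul_eq_mul, mul_one]
  rw [← h1]
  calc ∫ x, (∑ j ∈ F, (B j).indicator (fun _ => (1 : ℝ)) x) ∂μ ≤ ∫ _x, m ∂μ :=
        integral_mono (integrable_finsetSum _ hint) (integrable_const m) h
    _ = m := by simp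

theorem avg_step (μ : Measure UnitAddCircle) [IsProbabilityMeasure μ] (a : ℕ) (S : Finset ℕ)
    (hS : 0 < S.card) (hco : (S : Set ℕ).Pairwise Nat.Coprime) (hinv : ∀ s ∈ S, Inv μ s)
    (lo hi : ℕ) (hlo1 : 1 ≤ lo) (hlo : ∀ s ∈ S, lo ≤ s) (hhi : ∀ s ∈ S, s ≤ hi) (ρ : ℝ)
    (hρ : 2 * ((2 ^ (2 * a) * hi : ℕ) : ℝ) * ρ < 1) :
    Gm μ a ρ ≤ Gm μ a (ρ * 2 ^ (2 * a) / lo) + 8 * a / (S.card : ℝ) := by
  classical
  have hcard : (0 : ℝ) < S.card := by exact_mod_cast hS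
  obtain ⟨ρ', hρ'⟩ : ∃ ρ' : ℝ, ρ' = ρ * 2 ^ (2 * a) / lo := ⟨_, rfl⟩
  rw [← hρ']
  have hmA : ∀ (s : ℕ) (n : ℕ),
      MeasurableSet ((fun x : UnitAddCircle => s • x) ⁻¹' Near n ρ) := fun s n =>
    (continuous_nsmul_circle s).measurable (measurableSet_near n ρ)
  let B : ℕ × ℕ → Set UnitAddCircle := fun j =>
    ((fun x : UnitAddCircle => j.2 • x) ⁻¹' Near (2 ^ j.1) ρ) \ Near (2 ^ j.1) ρ'
  have hBm : ∀ j ∈ Finset.Ioc a (2 * a) ×ˢ S, MeasurableSet (B j) := fun j _ =>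
    (hmA j.2 _).diff (measurableSet_near _ _)
  have h1 : ∑ j ∈ Finset.Ioc a (2 * a) ×ˢ S, μ.real (B j) ≤ 8 * a := by
    refine sum_real_le μ _ B hBm _ fun x => ?_
    have h2 := count_point a S hco lo hi hlo1 hlo hhi ρ hρ x
    rw [← hρ'] at h2
    have h3 : ∑ j ∈ Finset.Ioc a (2 * a) ×ˢ S, (B j).indicator (fun _ => (1 : ℝ)) x =
        ((∑ i ∈ Finset.Ioc a (2 * a), (S.filter fun s =>
          s • x ∈ Near (2 ^ i) ρ ∧ x ∉ Near (2 ^ i) ρ').card : ℕ) : ℝ) := by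
      rw [Finset.sum_product]
      push_cast
      refine Finset.sum_congr rfl fun i _ => ?_
      rw [Finset.card_filter]
      push_cast
      refine Finset.sum_congr rfl fun s _ => ?_
      by_cases hc : s • x ∈ Near (2 ^ i) ρ ∧ x ∉ Near (2 ^ i) ρ'
      · rw [if_pos hc, Set.indicator_of_mem (show x ∈ B (i, s) from hc)]
      · rw [if_neg hc, Set.indicator_of_notMem (show x ∉ B (i, s) from hc)]
    rw [h3]
    exact_mod_cast h2
  have h2 : ∀ i, ∀ s ∈ S, μ.real (Near (2 ^ i) ρ) ≤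
      μ.real (Near (2 ^ i) ρ') + μ.real (B (i, s)) := by
    intro i s hs
    rw [← (hinv s hs).real_preimage (measurableSet_near (2 ^ i) ρ)]
    refine (measureReal_mono ?_).trans (measureReal_union_le _ _)
    intro x hx
    by_cases hx' : x ∈ Near (2 ^ i) ρ'
    · exact Or.inl hx'
    · exact Or.inr ⟨hx, hx'⟩
  have h3 : (S.card : ℝ) * Gm μ a ρ ≤ S.card * Gm μ a ρ' + 8 * a := by
    rw [Finset.sum_product] at h1
    calc (S.card : ℝ) * Gm μ a ρ
        = ∑ i ∈ Finset.Ioc a (2 * a), ∑ _s ∈ S, μ.real (Near (2 ^ i) ρ) := by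
          unfold Gm
          rw [Finset.mul_sum]
          refine Finset.sum_congr rfl fun i _ => ?_
          rw [Finset.sum_const, nsmul_eq_mul]
      _ ≤ ∑ i ∈ Finset.Ioc a (2 * a), ∑ s ∈ S,
            (μ.real (Near (2 ^ i) ρ') + μ.real (B (i, s))) :=
          Finset.sum_le_sum fun i _ => Finset.sum_le_sum fun s hs => h2 i s hs
      _ = S.card * Gm μ a ρ' + ∑ i ∈ Finset.Ioc a (2 * a), ∑ s ∈ S, μ.real (B (i, s)) := by
          unfold Gm
          rw [Finset.mul_sum, ← Finset.sum_add_distrib]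
          refine Finset.sum_congr rfl fun i _ => ?_
          rw [Finset.sum_add_distrib, Finset.sum_const, nsmul_eq_mul]
      _ ≤ S.card * Gm μ a ρ' + 8 * a := by linarith
  have h4 : (S.card : ℝ) * Gm μ a ρ ≤ S.card * (Gm μ a ρ' + 8 * a / (S.card : ℝ)) := by
    rw [mul_add, mul_div_cancel₀ _ hcard.ne']
    exact h3
  exact le_of_mul_le_mul_left h4 hcard

/-- eight steps. -/
theorem stage (μ : Measure UnitAddCircle) [IsProbabilityMeasure μ] (P : Set ℕ)
    (hco : P.Pairwise Nat.Coprime) (hinv : ∀ p ∈ P, Inv μ p) (a m : ℕ) (ha : 1 ≤ a)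
    (hm : 4 * a ≤ m) (hpos : 0 < (pw P (2 ^ m)).card) :
    Gm μ a (1 / 2 ^ (4 * m)) ≤ Gm μ a (1 / 2 ^ (8 * m)) + 64 * a / ((pw P (2 ^ m)).card : ℝ) := by
  obtain ⟨d, hd⟩ : ∃ d, m = 2 * a + d := ⟨m - 2 * a, by omega⟩
  have hcard : (0 : ℝ) < (pw P (2 ^ m)).card := by exact_mod_cast hpos
  have key : ∀ r : ℕ, Gm μ a (1 / 2 ^ (4 * m)) ≤
      Gm μ a (1 / 2 ^ (4 * m + r * d)) + r * (8 * a / ((pw P (2 ^ m)).card : ℝ)) := by
    intro r
    induction r with
    | zero => simp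
    | succ r ih =>
      have h1 := avg_step μ a (pw P (2 ^ m)) hpos (pw_coprime hco _)
        (fun s hs => inv_closure hinv (pw_spec hs).2.2) (2 ^ m) (2 ^ (2 * m)) Nat.one_le_two_pow
        (fun s hs => (pw_spec hs).1.le)
        (fun s hs => (pw_spec hs).2.1.trans (le_of_eq (by rw [← pow_mul, mul_comm])))
        (1 / 2 ^ (4 * m + r * d)) (by
          push_cast
          rw [mul_one_div, div_lt_one (by positivity), ← pow_add, ← pow_succ']
          exact pow_lt_pow_right₀ (by norm_num) (by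
            have : 0 ≤ r * d := Nat.zero_le _
            omega))
      have e1 : (1 / 2 ^ (4 * m + r * d) * 2 ^ (2 * a) / ((2 ^ m : ℕ) : ℝ) : ℝ) =
          1 / 2 ^ (4 * m + (r + 1) * d) := by
        have e2 : 4 * m + (r + 1) * d = (4 * m + r * d) + d := by ring
        rw [e2, pow_add _ (4 * m + r * d) d]
        push_cast
        have e3 : (2 : ℝ) ^ m = 2 ^ (2 * a) * 2 ^ d := by rw [← pow_add, ← hd]
        rw [e3]
        field_simp
      rw [e1] at h1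
      push_cast
      linarith
  have h8 := key 8
  have h9 : Gm μ a (1 / 2 ^ (4 * m + 8 * d)) ≤ Gm μ a (1 / 2 ^ (8 * m)) := by
    refine gm_mono μ a ?_
    refine one_div_le_one_div_of_le (by positivity) ?_
    exact pow_le_pow_right₀ (by norm_num) (by omega)
  have e : ((8 : ℕ) : ℝ) * (8 * a / ((pw P (2 ^ m)).card : ℝ)) =
      64 * a / ((pw P (2 ^ m)).card : ℝ) := by
    push_cast
    ring
  rw [e] at h8
  linarith

theorem torsion_null (μ : Measure UnitAddCircle) (hat : ∀ x, μ {x} = 0) :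
    μ {x : UnitAddCircle | ∃ b : ℕ, 1 ≤ b ∧ b • x = 0} = 0 := by
  have hsub : {x : UnitAddCircle | ∃ b : ℕ, 1 ≤ b ∧ b • x = 0} ⊆
      ⋃ q : ℚ, {((q : ℝ) : UnitAddCircle)} := by
    rintro x ⟨b, hb, hx⟩
    induction x using QuotientAddGroup.induction_on with
    | H t =>
      have h1 : b • ((t : ℝ) : UnitAddCircle) = ((b * t : ℝ) : UnitAddCircle) := by
        rw [← nsmul_eq_mul]
        exact (AddCircle.coe_nsmul (p := (1 : ℝ))).symm
      have h2 : ((b * t : ℝ) : UnitAddCircle) = 0 := by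
        rw [← h1]; exact hx
      rw [AddCircle.coe_eq_zero_iff] at h2
      obtain ⟨n, hn⟩ := h2
      have hb0 : (b : ℝ) ≠ 0 := by
        have : b ≠ 0 := by omega
        exact_mod_cast this
      rw [Set.mem_iUnion]
      refine ⟨(n : ℚ) / (b : ℚ), ?_⟩
      rw [Set.mem_singleton_iff]
      have h3 : t = (((n : ℚ) / (b : ℚ) : ℚ) : ℝ) := by
        push_cast
        rw [eq_div_iff hb0, mul_comm, ← hn]
        simp
      rw [← h3]
  exact measure_mono_null hsub (measure_iUnion_null fun q => hat _)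

theorem tendsto_near (μ : Measure UnitAddCircle) [IsProbabilityMeasure μ]
    (hat : ∀ x, μ {x} = 0) (n : ℕ) (ρ : ℕ → ℝ) (hρ : Antitone ρ) (hρ0 : Tendsto ρ atTop (𝓝 0)) :
    Tendsto (fun k => μ.real (Near n (ρ k))) atTop (𝓝 0) := by
  have hb : ∀ b : ℕ, 1 ≤ b →
      Tendsto (fun k => μ.real {x : UnitAddCircle | ‖b • x‖ ≤ ρ k}) atTop (𝓝 0) := by
    intro b hb1
    have hcl : ∀ k, MeasurableSet {x : UnitAddCircle | ‖b • x‖ ≤ ρ k} := fun k =>
      (isClosed_le (continuous_nsmul_circle b).norm continuous_const).measurableSet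
    have h1 := tendsto_measure_iInter_atTop (μ := μ)
      (s := fun k => {x : UnitAddCircle | ‖b • x‖ ≤ ρ k})
      (fun k => (hcl k).nullMeasurableSet)
      (fun i j hij x (hx : ‖b • x‖ ≤ ρ j) => hx.trans (hρ hij)) ⟨0, measure_ne_top _ _⟩
    have h2 : μ (⋂ k, {x : UnitAddCircle | ‖b • x‖ ≤ ρ k}) = 0 := by
      refine measure_mono_null ?_ (torsion_null μ hat)
      intro x hx
      refine ⟨b, hb1, ?_⟩
      rw [← norm_eq_zero]
      refine le_antisymm ?_ (norm_nonneg _)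
      exact ge_of_tendsto' hρ0 fun k => Set.mem_iInter.1 hx k
    rw [h2] at h1
    have h3 := (ENNReal.tendsto_toReal ENNReal.zero_ne_top).comp h1
    rw [ENNReal.toReal_zero] at h3
    exact h3
  have hsum : Tendsto (fun k => ∑ b ∈ Finset.Icc 1 n,
      μ.real {x : UnitAddCircle | ‖b • x‖ ≤ ρ k}) atTop (𝓝 0) := by
    have := tendsto_finsetSum (Finset.Icc 1 n) fun b hb' => hb b (Finset.mem_Icc.1 hb').1
    simpa using this
  refine squeeze_zero (fun k => measureReal_nonneg) (fun k => ?_) hsum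
  have h : Near n (ρ k) = ⋃ b ∈ Finset.Icc 1 n, {x : UnitAddCircle | ‖b • x‖ ≤ ρ k} := by
    ext x
    simp only [Near, Set.mem_ofPred_eq, Set.mem_iUnion, Finset.mem_Icc, exists_prop, and_assoc]
  rw [h]
  exact measureReal_biUnion_finset_le _ _

theorem near_scales (μ : Measure UnitAddCircle) [IsProbabilityMeasure μ]
    (hat : ∀ x, μ {x} = 0) (P : Set ℕ) (hco : P.Pairwise Nat.Coprime) (hinv : ∀ p ∈ P, Inv μ p)
    (j : ℕ) (hpos : ∀ i, j ≤ i → 0 < (pw P (2 ^ 2 ^ i)).card)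
    (hsum : Summable fun i : ℕ => 1 / ((pw P (2 ^ 2 ^ i)).card : ℝ)) :
    μ.real (Near (2 ^ 2 ^ j) (1 / (2 : ℝ) ^ (16 * 2 ^ j))) ≤
      ∑' i : ℕ, 64 / ((pw P (2 ^ 2 ^ (j + i))).card : ℝ) := by
  have hs : Summable fun i : ℕ => 64 / ((pw P (2 ^ 2 ^ (j + i))).card : ℝ) := by
    have h7 := (summable_nat_add_iff j).2 (hsum.mul_left 64)
    refine h7.congr fun i => ?_
    rw [add_comm i j, mul_one_div]
  have ha1 : 1 ≤ 2 ^ j := Nat.one_le_two_pow
  have ha0 : (0 : ℝ) < ((2 ^ j : ℕ) : ℝ) := by exact_mod_cast ha1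
  have hs2 : Summable fun i : ℕ => 64 / ((pw P (2 ^ 2 ^ (j + (i + 2)))).card : ℝ) :=
    (summable_nat_add_iff 2).2 hs
  -- telescoping
  have key : ∀ k : ℕ, Gm μ (2 ^ j) (1 / 2 ^ (16 * 2 ^ j)) ≤
      Gm μ (2 ^ j) (1 / 2 ^ (4 * 2 ^ (j + (k + 2)))) +
      ∑ i ∈ Finset.range k, 64 * ((2 ^ j : ℕ) : ℝ) / ((pw P (2 ^ 2 ^ (j + (i + 2)))).card : ℝ) := by
    intro k
    induction k with
    | zero =>
      have e : 4 * 2 ^ (j + (0 + 2)) = 16 * 2 ^ j := by rw [zero_add, pow_add]; ring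
      rw [e]
      simp
    | succ k ih =>
      have h1 := stage μ P hco hinv (2 ^ j) (2 ^ (j + (k + 2))) ha1 (by
        calc 4 * 2 ^ j = 2 ^ (j + 2) := by rw [pow_add]; ring
          _ ≤ 2 ^ (j + (k + 2)) := Nat.pow_le_pow_right (by norm_num) (by omega))
        (hpos _ (by omega))
      have e : 8 * 2 ^ (j + (k + 2)) = 4 * 2 ^ (j + (k + 1 + 2)) := by
        have : j + (k + 1 + 2) = (j + (k + 2)) + 1 := by ring
        rw [this, pow_succ]
        ring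
      rw [e] at h1
      rw [Finset.sum_range_succ]
      linarith
  have hle : ∀ k : ℕ, ((2 ^ j : ℕ) : ℝ) * μ.real (Near (2 ^ 2 ^ j) (1 / (2 : ℝ) ^ (16 * 2 ^ j))) ≤
      Gm μ (2 ^ j) (1 / 2 ^ (4 * 2 ^ (j + (k + 2)))) +
      ((2 ^ j : ℕ) : ℝ) * ∑' i : ℕ, 64 / ((pw P (2 ^ 2 ^ (j + i))).card : ℝ) := by
    intro k
    refine (le_gm μ (2 ^ j) _).trans ((key k).trans (add_le_add le_rfl ?_))
    have h1 : ∑ i ∈ Finset.range k, 64 * ((2 ^ j : ℕ) : ℝ) /
        ((pw P (2 ^ 2 ^ (j + (i + 2)))).card : ℝ) = ((2 ^ j : ℕ) : ℝ) *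
        ∑ i ∈ Finset.range k, 64 / ((pw P (2 ^ 2 ^ (j + (i + 2)))).card : ℝ) := by
      rw [Finset.mul_sum]
      exact Finset.sum_congr rfl fun i _ => by ring
    rw [h1]
    refine mul_le_mul_of_nonneg_left ?_ ha0.le
    refine (hs2.sum_le_tsum _ fun i _ => by positivity).trans ?_
    rw [← hs.sum_add_tsum_nat_add 2]
    have h2 : 0 ≤ ∑ i ∈ Finset.range 2, 64 / ((pw P (2 ^ 2 ^ (j + i))).card : ℝ) :=
      Finset.sum_nonneg fun i _ => by positivity
    linarith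
  have hlim : Tendsto (fun k : ℕ => Gm μ (2 ^ j) (1 / 2 ^ (4 * 2 ^ (j + (k + 2))))) atTop (𝓝 0) := by
    unfold Gm
    have hρa : Antitone fun k : ℕ => (1 / 2 ^ (4 * 2 ^ (j + (k + 2))) : ℝ) := by
      intro k k' hk
      refine one_div_le_one_div_of_le (by positivity) ?_
      refine pow_le_pow_right₀ (by norm_num) ?_
      exact Nat.mul_le_mul_left _ (Nat.pow_le_pow_right (by norm_num) (by omega))
    have hρ0 : Tendsto (fun k : ℕ => (1 / 2 ^ (4 * 2 ^ (j + (k + 2))) : ℝ)) atTop (𝓝 0) := by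
      have h1 : Tendsto (fun k : ℕ => ((1 / 2 : ℝ)) ^ k) atTop (𝓝 0) :=
        tendsto_pow_atTop_nhds_zero_of_lt_one (by norm_num) (by norm_num)
      refine squeeze_zero (fun k => by positivity) (fun k => ?_) h1
      rw [one_div, one_div, inv_pow]
      refine inv_anti₀ (by positivity) ?_
      refine pow_le_pow_right₀ (by norm_num) ?_
      calc k ≤ 2 ^ k := (Nat.lt_two_pow_self).le
        _ ≤ 2 ^ (j + (k + 2)) := Nat.pow_le_pow_right (by norm_num) (by omega)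
        _ ≤ 4 * 2 ^ (j + (k + 2)) := Nat.le_mul_of_pos_left _ (by norm_num)
    have := tendsto_finsetSum (Finset.Ioc (2 ^ j) (2 * 2 ^ j)) fun i (_ : i ∈ _) =>
      tendsto_near μ hat (2 ^ i) _ hρa hρ0
    simpa using this
  have h1 : ((2 ^ j : ℕ) : ℝ) * μ.real (Near (2 ^ 2 ^ j) (1 / (2 : ℝ) ^ (16 * 2 ^ j))) ≤
      ((2 ^ j : ℕ) : ℝ) * ∑' i : ℕ, 64 / ((pw P (2 ^ 2 ^ (j + i))).card : ℝ) := by
    have h2 := hlim.add_const
      (((2 ^ j : ℕ) : ℝ) * ∑' i : ℕ, 64 / ((pw P (2 ^ 2 ^ (j + i))).card : ℝ))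
    rw [zero_add] at h2
    exact ge_of_tendsto' h2 hle
  exact le_of_mul_le_mul_left h1 ha0

end Furst96.Spx
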