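import Pool.Agent.H.MP_96e181_an.spx.Near

/-! # Module NearGen: the Diophantine estimate for measures with atoms

As `near_scales`, for every invariant probability measure; the mass of the torsion points of order
at most `2^(2a)` is added. -/

set_option autoImplicit false

open MeasureTheory Filter Topology

namespace Furst96.Spx

open Furst96.Sps

theorem iInter_near_subset (n : ℕ) (ρ : ℕ → ℝ) (hρ0 : Tendsto ρ atTop (𝓝 0)) :
    (⋂ k, Near n (ρ k)) ⊆ {x : UnitAddCircle | n.factorial • x = 0} := by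
  intro x hx
  by_contra hne
  have hb : ∀ b ∈ Finset.Icc 1 n, 0 < ‖b • x‖ := by
    intro b hb
    rw [norm_pos_iff]
    intro h0
    apply hne
    obtain ⟨h1, h2⟩ := Finset.mem_Icc.1 hb
    obtain ⟨c, hc⟩ := Nat.dvd_factorial (by omega) h2
    show n.factorial • x = 0
    rw [hc, mul_comm, mul_smul, h0, smul_zero]
  have h1 : ∀ b ∈ Finset.Icc 1 n, ∀ᶠ k in atTop, ρ k < ‖b • x‖ := fun b hb' =>
    hρ0.eventually_lt_const (hb b hb')
  have h2 : ∀ᶠ k in atTop, ∀ b ∈ Finset.Icc 1 n, ρ k < ‖b • x‖ :=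
    (Finset.eventually_all _).2 h1
  obtain ⟨k, hk⟩ := h2.exists
  obtain ⟨b, hb1, hb2, hb3⟩ := Set.mem_iInter.1 hx k
  exact absurd hb3 (not_le.2 (hk b (Finset.mem_Icc.2 ⟨hb1, hb2⟩)))

theorem tendsto_near_gen (μ : Measure UnitAddCircle) [IsProbabilityMeasure μ] (n : ℕ)
    (ρ : ℕ → ℝ) (hρ : Antitone ρ) (hρ0 : Tendsto ρ atTop (𝓝 0)) :
    ∃ L : ℝ, L ≤ μ.real {x : UnitAddCircle | n.factorial • x = 0} ∧
      Tendsto (fun k => μ.real (Near n (ρ k))) atTop (𝓝 L) := by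
  refine ⟨μ.real (⋂ k, Near n (ρ k)), measureReal_mono (iInter_near_subset n ρ hρ0), ?_⟩
  have h1 := tendsto_measure_iInter_atTop (μ := μ) (s := fun k => Near n (ρ k))
    (fun k => (measurableSet_near n (ρ k)).nullMeasurableSet)
    (fun i j hij => near_mono le_rfl (hρ hij)) ⟨0, measure_ne_top _ _⟩
  exact (ENNReal.tendsto_toReal (measure_ne_top _ _)).comp h1

theorem near_scales_gen (μ : Measure UnitAddCircle) [IsProbabilityMeasure μ]
    (P : Set ℕ) (hco : P.Pairwise Nat.Coprime) (hinv : ∀ p ∈ P, Inv μ p)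
    (j : ℕ) (hpos : ∀ i, j ≤ i → 0 < (pw P (2 ^ 2 ^ i)).card)
    (hsum : Summable fun i : ℕ => 1 / ((pw P (2 ^ 2 ^ i)).card : ℝ)) :
    μ.real (Near (2 ^ 2 ^ j) (1 / (2 : ℝ) ^ (16 * 2 ^ j))) ≤
      μ.real {x : UnitAddCircle | (2 ^ (2 * 2 ^ j)).factorial • x = 0} +
      ∑' i : ℕ, 64 / ((pw P (2 ^ 2 ^ (j + i))).card : ℝ) := by
  have hs : Summable fun i : ℕ => 64 / ((pw P (2 ^ 2 ^ (j + i))).card : ℝ) := by
    have h7 := (summable_nat_add_iff j).2 (hsum.mul_left 64)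
    refine h7.congr fun i => ?_
    rw [add_comm i j, mul_one_div]
  have ha1 : 1 ≤ 2 ^ j := Nat.one_le_two_pow
  have ha0 : (0 : ℝ) < ((2 ^ j : ℕ) : ℝ) := by exact_mod_cast ha1
  have hs2 : Summable fun i : ℕ => 64 / ((pw P (2 ^ 2 ^ (j + (i + 2)))).card : ℝ) :=
    (summable_nat_add_iff 2).2 hs
  -- telescoping
  have key : ∀ k : ℕ, Gm μ (2 ^ j) (1 / 2 ^ (16 * 2 ^ j)) ≤
      Gm μ (2 ^ j) (1 / 2 ^ (4 * 2 ^ (j + (k + 2)))) +
      ∑ i ∈ Finset.range k, 64 * ((2 ^ j : ℕ) : ℝ) / ((pw P (2 ^ 2 ^ (j + (i + 2)))).card : ℝ) := by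
    intro k
    induction k with
    | zero =>
      have e : 4 * 2 ^ (j + (0 + 2)) = 16 * 2 ^ j := by rw [zero_add, pow_add]; ring
      rw [e]
      simp
    | succ k ih =>
      have h1 := stage μ P hco hinv (2 ^ j) (2 ^ (j + (k + 2))) ha1 (by
        calc 4 * 2 ^ j = 2 ^ (j + 2) := by rw [pow_add]; ring
          _ ≤ 2 ^ (j + (k + 2)) := Nat.pow_le_pow_right (by norm_num) (by omega))
        (hpos _ (by omega))
      have e : 8 * 2 ^ (j + (k + 2)) = 4 * 2 ^ (j + (k + 1 + 2)) := by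
        have : j + (k + 1 + 2) = (j + (k + 2)) + 1 := by ring
        rw [this, pow_succ]
        ring
      rw [e] at h1
      rw [Finset.sum_range_succ]
      linarith
  have hle : ∀ k : ℕ, ((2 ^ j : ℕ) : ℝ) * μ.real (Near (2 ^ 2 ^ j) (1 / (2 : ℝ) ^ (16 * 2 ^ j))) ≤
      Gm μ (2 ^ j) (1 / 2 ^ (4 * 2 ^ (j + (k + 2)))) +
      ((2 ^ j : ℕ) : ℝ) * ∑' i : ℕ, 64 / ((pw P (2 ^ 2 ^ (j + i))).card : ℝ) := by
    intro k
    refine (le_gm μ (2 ^ j) _).trans ((key k).trans (add_le_add le_rfl ?_))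
    have h1 : ∑ i ∈ Finset.range k, 64 * ((2 ^ j : ℕ) : ℝ) /
        ((pw P (2 ^ 2 ^ (j + (i + 2)))).card : ℝ) = ((2 ^ j : ℕ) : ℝ) *
        ∑ i ∈ Finset.range k, 64 / ((pw P (2 ^ 2 ^ (j + (i + 2)))).card : ℝ) := by
      rw [Finset.mul_sum]
      exact Finset.sum_congr rfl fun i _ => by ring
    rw [h1]
    refine mul_le_mul_of_nonneg_left ?_ ha0.le
    refine (hs2.sum_le_tsum _ fun i _ => by positivity).trans ?_
    rw [← hs.sum_add_tsum_nat_add 2]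
    have h2 : 0 ≤ ∑ i ∈ Finset.range 2, 64 / ((pw P (2 ^ 2 ^ (j + i))).card : ℝ) :=
      Finset.sum_nonneg fun i _ => by positivity
    linarith
  have hρa : Antitone fun k : ℕ => (1 / 2 ^ (4 * 2 ^ (j + (k + 2))) : ℝ) := by
    intro k k' hk
    refine one_div_le_one_div_of_le (by positivity) ?_
    refine pow_le_pow_right₀ (by norm_num) ?_
    exact Nat.mul_le_mul_left _ (Nat.pow_le_pow_right (by norm_num) (by omega))
  have hρ0 : Tendsto (fun k : ℕ => (1 / 2 ^ (4 * 2 ^ (j + (k + 2))) : ℝ)) atTop (𝓝 0) := by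
    have h1 : Tendsto (fun k : ℕ => ((1 / 2 : ℝ)) ^ k) atTop (𝓝 0) :=
      tendsto_pow_atTop_nhds_zero_of_lt_one (by norm_num) (by norm_num)
    refine squeeze_zero (fun k => by positivity) (fun k => ?_) h1
    rw [one_div, one_div, inv_pow]
    refine inv_anti₀ (by positivity) ?_
    refine pow_le_pow_right₀ (by norm_num) ?_
    calc k ≤ 2 ^ k := (Nat.lt_two_pow_self).le
      _ ≤ 2 ^ (j + (k + 2)) := Nat.pow_le_pow_right (by norm_num) (by omega)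
      _ ≤ 4 * 2 ^ (j + (k + 2)) := Nat.le_mul_of_pos_left _ (by norm_num)
  choose L hL1 hL2 using fun i : ℕ => tendsto_near_gen μ (2 ^ i) _ hρa hρ0
  have hlim : Tendsto (fun k : ℕ => Gm μ (2 ^ j) (1 / 2 ^ (4 * 2 ^ (j + (k + 2))))) atTop
      (𝓝 (∑ i ∈ Finset.Ioc (2 ^ j) (2 * 2 ^ j), L i)) := by
    unfold Gm
    exact tendsto_finsetSum _ fun i _ => hL2 i
  have hLs : ∑ i ∈ Finset.Ioc (2 ^ j) (2 * 2 ^ j), L i ≤ ((2 ^ j : ℕ) : ℝ) *
      μ.real {x : UnitAddCircle | (2 ^ (2 * 2 ^ j)).factorial • x = 0} := by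
    have h1 : ∀ i ∈ Finset.Ioc (2 ^ j) (2 * 2 ^ j), L i ≤
        μ.real {x : UnitAddCircle | (2 ^ (2 * 2 ^ j)).factorial • x = 0} := by
      intro i hi
      refine (hL1 i).trans (measureReal_mono ?_)
      intro x hx
      have h2 : 2 ^ i ≤ 2 ^ (2 * 2 ^ j) :=
        Nat.pow_le_pow_right (by norm_num) (Finset.mem_Ioc.1 hi).2
      obtain ⟨c, hc⟩ := Nat.factorial_dvd_factorial h2
      show (2 ^ (2 * 2 ^ j)).factorial • x = 0
      have hx' : (2 ^ i : ℕ).factorial • x = 0 := hx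
      rw [hc, mul_comm, mul_smul, hx', smul_zero]
    refine (Finset.sum_le_sum h1).trans (le_of_eq ?_)
    rw [Finset.sum_const, Nat.card_Ioc, nsmul_eq_mul]
    congr 1
    have : 2 * 2 ^ j - 2 ^ j = 2 ^ j := by omega
    rw [this]
  have h1 : ((2 ^ j : ℕ) : ℝ) * μ.real (Near (2 ^ 2 ^ j) (1 / (2 : ℝ) ^ (16 * 2 ^ j))) ≤
      ((2 ^ j : ℕ) : ℝ) * (μ.real {x : UnitAddCircle | (2 ^ (2 * 2 ^ j)).factorial • x = 0} +
        ∑' i : ℕ, 64 / ((pw P (2 ^ 2 ^ (j + i))).card : ℝ)) := by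
    have h2 := hlim.add_const
      (((2 ^ j : ℕ) : ℝ) * ∑' i : ℕ, 64 / ((pw P (2 ^ 2 ^ (j + i))).card : ℝ))
    refine (ge_of_tendsto' h2 hle).trans ?_
    rw [mul_add]
    exact add_le_add hLs le_rfl
  exact le_of_mul_le_mul_left h1 ha0

end Furst96.Spx
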